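import Mathlib
import Pool.Agent.Helper43.Gem.Defs

/-!
# Reflection complexes: definitions

`(W, S)` is a Coxeter system (`S = Set.range cs.simple`), `K` a simplicial complex with vertex set `S`. The
reflection complex `U(W, K)` (Vinberg, Davis) is the simplicial complex of all finite chains of cosets `w W_T`,
`w ∈ W`, `T ∈ K` or `T = ∅`, where `W_T` is the subgroup generated by `T`.

If `W` is finite and `K` is a triangulation of the 3-sphere as a PL manifold, this is a triangulation of
a closed PL 4-manifold, on which `W` acts as a group generated by reflections; the chambers are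
4-balls whose faces are dual to `K` (simple polytopes if `K` is polytopal). For `W = (Z/2)^m` it is the real moment-angle manifold of `K`.
-/

set_option autoImplicit false

namespace Pool.MP_f18604_gt.Cox

open Pool.MP_f18604_gt.Gem

section General

variable {α : Type*}

/-- `φ` is a 1-cocycle of the simplicial complex `X` with coefficients in `Z/2`. -/
def IsCocycle (X : Set (Finset α)) (φ : α → α → ZMod 2) : Prop :=
  ∀ σ ∈ X, ∀ a ∈ σ, ∀ b ∈ σ, ∀ c ∈ σ, φ a b + φ b c = φ a c

/-- `φ` is a 1-coboundary: `φ a b = ψ a + ψ b` on the edges of `X`, for some function `ψ`. -/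
def IsCoboundary (X : Set (Finset α)) (φ : α → α → ZMod 2) : Prop :=
  ∃ ψ : α → ZMod 2, ∀ σ ∈ X, ∀ a ∈ σ, ∀ b ∈ σ, φ a b = ψ a + ψ b

/-- The first cohomology of `X` with coefficients in `Z/2` has dimension `b`: there are `b` cocycles which
represent a basis, i.e. each cocycle becomes a coboundary by adding the sum of exactly one subset of them. -/
def HasBetti (X : Set (Finset α)) (b : ℕ) : Prop :=
  ∃ φ : Fin b → α → α → ZMod 2, (∀ i, IsCocycle X (φ i)) ∧
    ∀ χ, IsCocycle X χ → ∃! S : Finset (Fin b), IsCoboundary X (χ + ∑ i ∈ S, φ i)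

/-- The simplicial complex `X` is simply connected: its 1-skeleton is connected and every
homomorphism from its edge-path groupoid to a group is trivial up to a change of gauge (equivalently, every
homomorphism from its edge-path group to a group is trivial). -/
def SimplyConn (X : Set (Finset α)) : Prop :=
  (∀ a b : α, {a} ∈ X → {b} ∈ X →
    Relation.ReflTransGen (fun x y => ∃ σ ∈ X, x ∈ σ ∧ y ∈ σ) a b) ∧
  ∀ (G : Type) [Group G] (φ : α → α → G),
    (∀ σ ∈ X, ∀ a ∈ σ, ∀ b ∈ σ, ∀ c ∈ σ, φ a b * φ b c = φ a c) →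
    ∃ ψ : α → G, ∀ σ ∈ X, ∀ a ∈ σ, ∀ b ∈ σ, φ a b = (ψ a)⁻¹ * ψ b

end General

section Coxeter

variable {B W : Type*} [Group W] {M : CoxeterMatrix B} (cs : CoxeterSystem M W)

/-- `K` is a simplicial complex (a set of nonempty finite sets, closed under passing to nonempty
subsets) whose set of vertices is the set `S` of simple reflections of the Coxeter system. -/
structure IsComplexOn (K : Set (Finset W)) : Prop where
  nonempty : ∀ T ∈ K, T.Nonempty
  sub : ∀ T ∈ K, ∀ t ∈ T, t ∈ Set.range cs.simple
  down : ∀ T ∈ K, ∀ T' ⊆ T, T'.Nonempty → T' ∈ K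
  vertex : ∀ i, {cs.simple i} ∈ K

/-- The coset `w W_T`. -/
def coset (w : W) (T : Finset W) : Set W := {u | w⁻¹ * u ∈ Subgroup.closure (T : Set W)}

/-- The cosets `w W_T` with `T ∈ K` or `T = ∅`. -/
def cells (K : Set (Finset W)) : Set (Set W) := {C | ∃ w T, (T = ∅ ∨ T ∈ K) ∧ C = coset w T}

/-- The reflection complex `U(W, K)`: its vertices are the cosets `w W_T` with `T ∈ K` or `T = ∅`, its
simplices the nonempty finite chains of cosets. -/
def reflComplex (K : Set (Finset W)) : Set (Finset (Set W)) :=
  {σ | σ.Nonempty ∧ (∀ C ∈ σ, C ∈ cells K) ∧ ∀ C ∈ σ, ∀ C' ∈ σ, C ⊆ C' ∨ C' ⊆ C}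

/-- The graph on the right descents of `w` (the simple reflections `s` with `ℓ(ws) < ℓ(w)`), in which two of them
are adjacent if they lie in a common simplex of `K`. -/
def descGraph (K : Set (Finset W)) (w : W) :
    SimpleGraph {s : W // ∃ i, s = cs.simple i ∧ cs.IsRightDescent w i} where
  Adj s t := s ≠ t ∧ ∃ T ∈ K, (s : W) ∈ T ∧ (t : W) ∈ T
  symm := ⟨fun _ _ ⟨h, T, hT, h1, h2⟩ => ⟨h.symm, T, hT, h2, h1⟩⟩
  loopless := ⟨fun _ h => h.1 rfl⟩

/-- The number of connected components of the graph on the right descents of `w`. -/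
noncomputable def descComp (K : Set (Finset W)) (w : W) : ℕ :=
  Nat.card (descGraph cs K w).ConnectedComponent

end Coxeter

end Pool.MP_f18604_gt.Cox
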