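import Mathlib

/-!
# The exchange condition for Coxeter systems

`exchange`: if `s_i` is a right descent of the product of the word `ω`, then `π ω * s_i` is the product
of a word obtained from `ω` by deleting one letter.

Proof (Bourbaki): `s_i` acts on `W × Z/2` by `(t, e) ↦ (s_i t s_i, e + [t = s_i])`; these
permutations satisfy the Coxeter relations.
-/

set_option autoImplicit false

namespace Pool.MP_f18604_gt.Cox

open List CoxeterSystem

variable {B W : Type*} [Group W] {M : CoxeterMatrix B} (cs : CoxeterSystem M W)

open Classical in
/-- the action of a simple reflection on `W × Z/2` -/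
noncomputable def act (i : B) : Function.End (W × ZMod 2) := fun x =>
  (cs.simple i * x.1 * cs.simple i, x.2 + if x.1 = cs.simple i then 1 else 0)

open Classical in
/-- the number of `k < n` with `t = s_j (s_i s_j)^k`, modulo 2 -/
noncomputable def altCount (i j : B) (n : ℕ) (t : W) : ZMod 2 :=
  ∑ k ∈ Finset.range n, if t = cs.simple j * (cs.simple i * cs.simple j) ^ k then 1 else 0

theorem alt_inv (i j : B) (n : ℕ) :
    cs.simple j * (cs.simple i * cs.simple j) ^ n * cs.simple j =
      ((cs.simple i * cs.simple j) ^ n)⁻¹ := by
  induction n with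
  | zero => simp
  | succ n ih =>
    have h : ((cs.simple i * cs.simple j) ^ (n + 1))⁻¹ =
        (cs.simple j * cs.simple i) * ((cs.simple i * cs.simple j) ^ n)⁻¹ := by
      rw [pow_succ]
      simp [mul_assoc]
    rw [h, ← ih, pow_succ']
    simp only [mul_assoc]

theorem act_pow (i j : B) (n : ℕ) (t : W) (e : ZMod 2) :
    ((act cs i * act cs j) ^ n) (t, e) =
      ((cs.simple i * cs.simple j) ^ n * t * ((cs.simple i * cs.simple j) ^ n)⁻¹,
        e + altCount cs i j (2 * n) t) := by
  classical
  induction n with
  | zero => simp [altCount]; rfl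
  | succ n ih =>
    rw [pow_succ']
    change (act cs i * act cs j) (((act cs i * act cs j) ^ n) (t, e)) = _
    rw [ih]
    set a := (cs.simple i * cs.simple j) ^ n with ha
    have hinv : cs.simple j * a * cs.simple j = a⁻¹ := alt_inv cs i j n
    have haa : a * a = (cs.simple i * cs.simple j) ^ (2 * n) := by
      rw [ha, ← pow_add, two_mul]
    have e1 : (a * t * a⁻¹ = cs.simple j) ↔
        t = cs.simple j * (cs.simple i * cs.simple j) ^ (2 * n) := by
      have h1 : a⁻¹ * cs.simple j * a = cs.simple j * (cs.simple i * cs.simple j) ^ (2 * n) := by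
        rw [← hinv, ← haa]
        simp [mul_assoc]
      rw [← h1]
      constructor
      · intro h
        rw [← h]
        group
      · intro h
        rw [h]
        group
    have e2 : (cs.simple j * (a * t * a⁻¹) * cs.simple j = cs.simple i) ↔
        t = cs.simple j * (cs.simple i * cs.simple j) ^ (2 * n + 1) := by
      have h1 : a⁻¹ * (cs.simple j * cs.simple i * cs.simple j) * a =
          cs.simple j * (cs.simple i * cs.simple j) ^ (2 * n + 1) := by
        have h2 : (cs.simple i * cs.simple j) ^ (2 * n + 1) =
            a * (cs.simple i * cs.simple j) * a := by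
          rw [ha, ← pow_succ, ← pow_add]
          congr 1
          omega
        rw [h2, ← hinv]
        simp [mul_assoc]
      rw [← h1]
      constructor
      · intro h
        have h3 : a * t * a⁻¹ = cs.simple j * cs.simple i * cs.simple j := by
          rw [← h]
          simp [mul_assoc]
        rw [← h3]
        group
      · intro h
        rw [h]
        simp [mul_assoc]
    have hsum : altCount cs i j (2 * (n + 1)) t = altCount cs i j (2 * n) t +
        (if t = cs.simple j * (cs.simple i * cs.simple j) ^ (2 * n) then 1 else 0) +
        (if t = cs.simple j * (cs.simple i * cs.simple j) ^ (2 * n + 1) then 1 else 0) := by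
      unfold altCount
      rw [show 2 * (n + 1) = 2 * n + 1 + 1 by ring, Finset.sum_range_succ, Finset.sum_range_succ]
    rw [hsum]
    change act cs i (act cs j (a * t * a⁻¹, e + altCount cs i j (2 * n) t)) = _
    unfold act
    simp only
    have hpow : (cs.simple i * cs.simple j) ^ (n + 1) = cs.simple i * cs.simple j * a := by
      rw [ha, pow_succ']
    rw [if_congr e1 rfl rfl, if_congr e2 rfl rfl, hpow]
    refine Prod.ext ?_ ?_
    · simp [mul_assoc]
    · simp only
      ring

theorem act_liftable : M.IsLiftable (act cs) := by
  classical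
  intro i j
  funext ⟨t, e⟩
  rw [act_pow, cs.simple_mul_simple_pow]
  have hz : altCount cs i j (2 * M i j) t = 0 := by
    unfold altCount
    rw [two_mul, Finset.sum_range_add]
    have : ∀ k ∈ Finset.range (M i j),
        (if t = cs.simple j * (cs.simple i * cs.simple j) ^ (M i j + k) then (1 : ZMod 2) else 0) =
        if t = cs.simple j * (cs.simple i * cs.simple j) ^ k then 1 else 0 := by
      intro k _
      rw [pow_add, cs.simple_mul_simple_pow, one_mul]
    rw [Finset.sum_congr rfl this]
    exact CharTwo.add_self_eq_zero _
  rw [hz]
  simp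
  rfl

/-- the action of `W` on `W × Z/2` -/
noncomputable def Act : W →* Function.End (W × ZMod 2) := cs.lift ⟨act cs, act_liftable cs⟩

open Classical in
/-- the number of times `t` occurs in the right inversion sequence, modulo 2 -/
noncomputable def cnt : List B → W → ZMod 2
  | [], _ => 0
  | i :: ω, t => cnt ω t + if (cs.wordProd ω)⁻¹ * cs.simple i * cs.wordProd ω = t then 1 else 0

theorem Act_word (ω : List B) (t : W) (e : ZMod 2) :
    Act cs (cs.wordProd ω) (t, e) =
      (cs.wordProd ω * t * (cs.wordProd ω)⁻¹, e + cnt cs ω t) := by
  classical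
  induction ω with
  | nil => simp [cnt, wordProd_nil]; rfl
  | cons i ω ih =>
    rw [wordProd_cons, map_mul]
    change Act cs (cs.simple i) (Act cs (cs.wordProd ω) (t, e)) = _
    rw [ih]
    have h1 : Act cs (cs.simple i) = act cs i := cs.lift_apply_simple (act_liftable cs) i
    rw [h1]
    unfold act
    simp only [cnt]
    have e1 : (cs.wordProd ω * t * (cs.wordProd ω)⁻¹ = cs.simple i) ↔
        ((cs.wordProd ω)⁻¹ * cs.simple i * cs.wordProd ω = t) := by
      constructor
      · intro h
        rw [← h]
        group
      · intro h
        rw [← h]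
        group
    rw [if_congr e1 rfl rfl]
    refine Prod.ext ?_ ?_
    · simp [mul_assoc]
    · simp only
      ring

theorem cnt_eq_zero {ω : List B} {t : W} (h : t ∉ cs.rightInvSeq ω) : cnt cs ω t = 0 := by
  classical
  induction ω with
  | nil => rfl
  | cons i ω ih =>
    rw [rightInvSeq, List.mem_cons, not_or] at h
    unfold cnt
    rw [ih h.2, if_neg (fun hh => h.1 hh.symm), add_zero]

/-- **Exchange condition.** -/
theorem exchange {ω : List B} {i : B} (h : cs.IsRightDescent (cs.wordProd ω) i) :
    ∃ j, j < ω.length ∧ cs.wordProd ω * cs.simple i = cs.wordProd (ω.eraseIdx j) := by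
  classical
  have hmem : cs.simple i ∈ cs.rightInvSeq ω := by
    by_contra hn
    have h0 := cnt_eq_zero cs hn
    obtain ⟨ω', hω', hw'⟩ := cs.exists_isReduced (cs.wordProd ω * cs.simple i)
    have hn' : cs.simple i ∉ cs.rightInvSeq ω' := by
      intro hm
      have h2 := (cs.isRightInversion_of_mem_rightInvSeq hω' hm).2
      rw [← hw', mul_assoc, cs.simple_mul_simple_self, mul_one] at h2
      unfold IsRightDescent at h
      omega
    have h0' := cnt_eq_zero cs hn'
    have e1 := Act_word cs ω (cs.simple i) 0
    have e2 := Act_word cs ω' (cs.simple i) 1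
    have e3 : Act cs (cs.wordProd ω) (cs.simple i, 0) =
        Act cs (cs.wordProd ω') (cs.simple i, 1) := by
      have h3 : cs.wordProd ω = cs.wordProd ω' * cs.simple i := by
        rw [← hw', mul_assoc, cs.simple_mul_simple_self, mul_one]
      rw [h3, map_mul]
      change Act cs (cs.wordProd ω') (Act cs (cs.simple i) (cs.simple i, 0)) = _
      have h1 : Act cs (cs.simple i) = act cs i := cs.lift_apply_simple (act_liftable cs) i
      rw [h1]
      unfold act
      simp
    rw [e1, e2, h0, h0'] at e3
    have := congrArg Prod.snd e3
    simp at this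
  obtain ⟨j, hj, hjt⟩ := List.mem_iff_getElem.mp hmem
  rw [cs.length_rightInvSeq] at hj
  refine ⟨j, hj, ?_⟩
  rw [← cs.wordProd_mul_getD_rightInvSeq, List.getD_eq_getElem _ 1 (by simpa using hj), hjt]

end Pool.MP_f18604_gt.Cox
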