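import Mathlib
import Pool.Agent.Helper55.Cox.Exchange

/-!
# Standard parabolic subgroups and their cosets

`T` is a set of simple reflections of the Coxeter system, `W_T = closure T`.
-/

set_option autoImplicit false

namespace Pool.MP_f18604_gt.Cox

open CoxeterSystem

variable {B W : Type*} [Group W] {M : CoxeterMatrix B} (cs : CoxeterSystem M W)

/-- the letters of `ω` belong to `T` -/
def InT (T : Set W) (ω : List B) : Prop := ∀ i ∈ ω, cs.simple i ∈ T

variable {cs} {T : Set W}

theorem InT.wordProd_mem {ω : List B} (h : InT cs T ω) :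
    cs.wordProd ω ∈ Subgroup.closure T := by
  induction ω with
  | nil => simp
  | cons i ω ih =>
    rw [wordProd_cons]
    exact Subgroup.mul_mem _ (Subgroup.subset_closure (h i (by simp)))
      (ih fun j hj => h j (by simp [hj]))

theorem InT.eraseIdx {ω : List B} (h : InT cs T ω) (j : ℕ) : InT cs T (ω.eraseIdx j) :=
  fun i hi => h i (List.mem_of_mem_eraseIdx hi)

theorem InT.append {ω μ : List B} (h : InT cs T ω) (h' : InT cs T μ) : InT cs T (ω ++ μ) := by
  intro i hi
  rcases List.mem_append.1 hi with hi | hi
  · exact h i hi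
  · exact h' i hi

theorem exists_word (hT : T ⊆ Set.range cs.simple) {x : W} (hx : x ∈ Subgroup.closure T) :
    ∃ ω : List B, InT cs T ω ∧ cs.wordProd ω = x := by
  induction hx using Subgroup.closure_induction with
  | mem x hx =>
    obtain ⟨i, rfl⟩ := hT hx
    exact ⟨[i], fun j hj => by rw [List.mem_singleton] at hj; rw [hj]; exact hx, by simp⟩
  | one => exact ⟨[], fun j hj => by simp at hj, by simp⟩
  | mul x y _ _ hx hy =>
    obtain ⟨ω, h1, rfl⟩ := hx
    obtain ⟨μ, h2, rfl⟩ := hy
    exact ⟨ω ++ μ, h1.append h2, cs.wordProd_append _ _⟩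
  | inv x _ hx =>
    obtain ⟨ω, h1, rfl⟩ := hx
    exact ⟨ω.reverse, fun j hj => h1 j (List.mem_reverse.1 hj), cs.wordProd_reverse ω⟩

theorem reduce_word {ω : List B} (h : InT cs T ω) :
    ∃ μ : List B, InT cs T μ ∧ cs.wordProd μ = cs.wordProd ω ∧ cs.IsReduced μ := by
  induction ω using List.reverseRecOn with
  | nil => exact ⟨[], h, rfl, by simp [CoxeterSystem.IsReduced]⟩
  | append_singleton ω i ih =>
    obtain ⟨μ, h1, h2, h3⟩ := ih fun j hj => h j (by simp [hj])
    have hi : cs.simple i ∈ T := h i (by simp)
    by_cases hd : cs.IsRightDescent (cs.wordProd μ) i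
    · obtain ⟨j, hj, he⟩ := exchange cs hd
      refine ⟨μ.eraseIdx j, h1.eraseIdx j, ?_, ?_⟩
      · rw [← he, h2, wordProd_append, wordProd_singleton]
      · unfold CoxeterSystem.IsReduced
        have h4 := (cs.isRightDescent_iff.1 hd)
        rw [he, h3.eq] at h4
        have h5 := List.length_eraseIdx_add_one hj
        omega
    · refine ⟨μ ++ [i], h1.append (fun j hj => by rw [List.mem_singleton] at hj; rwa [hj]), ?_, ?_⟩
      · rw [wordProd_append, wordProd_append, h2]
      · unfold CoxeterSystem.IsReduced
        rw [wordProd_append, wordProd_singleton, cs.not_isRightDescent_iff.1 hd, h3.eq]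
        simp

theorem exists_reduced (hT : T ⊆ Set.range cs.simple) {x : W} (hx : x ∈ Subgroup.closure T) :
    ∃ ω : List B, InT cs T ω ∧ cs.wordProd ω = x ∧ cs.IsReduced ω := by
  obtain ⟨ω, h1, rfl⟩ := exists_word hT hx
  exact reduce_word h1

/-- `W_T ∩ S = T` -/
theorem simple_mem_of_mem (hT : T ⊆ Set.range cs.simple) {i : B}
    (h : cs.simple i ∈ Subgroup.closure T) : cs.simple i ∈ T := by
  obtain ⟨ω, h1, h2, h3⟩ := exists_reduced hT h
  have h4 : ω.length = 1 := by rw [← h3.eq, h2, cs.length_simple]
  obtain ⟨j, rfl⟩ := List.length_eq_one_iff.1 h4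
  rw [wordProd_singleton] at h2
  rw [← h2]
  exact h1 j (by simp)

theorem mem_of_isRightDescent (hT : T ⊆ Set.range cs.simple) {x : W}
    (hx : x ∈ Subgroup.closure T) {i : B} (hd : cs.IsRightDescent x i) : cs.simple i ∈ T := by
  obtain ⟨ω, h1, rfl⟩ := exists_word hT hx
  obtain ⟨j, hj, he⟩ := exchange cs hd
  refine simple_mem_of_mem hT ?_
  have h2 : cs.simple i = (cs.wordProd ω)⁻¹ * cs.wordProd (ω.eraseIdx j) := by
    rw [← he]
    simp
  rw [h2]
  exact Subgroup.mul_mem _ (Subgroup.inv_mem _ hx) (h1.eraseIdx j).wordProd_mem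

theorem eraseIdx_append_cases (μ ω : List B) {j : ℕ} (hj : j < (μ ++ ω).length) :
    (j < μ.length ∧ (μ ++ ω).eraseIdx j = μ.eraseIdx j ++ ω) ∨
      ∃ k, k < ω.length ∧ (μ ++ ω).eraseIdx j = μ ++ ω.eraseIdx k := by
  rcases lt_or_ge j μ.length with h | h
  · exact Or.inl ⟨h, List.eraseIdx_append_of_lt_length h ω⟩
  · refine Or.inr ⟨j - μ.length, ?_, List.eraseIdx_append_of_length_le h ω⟩
    rw [List.length_append] at hj
    omega

/-- If all elements of `T` are right descents of `w` then `w = v x` with `ℓ w = ℓ v + ℓ x` for all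
`x` in `W_T`. -/
theorem long_word {w : W} (hw : ∀ i, cs.simple i ∈ T → cs.IsRightDescent w i) {ω : List B}
    (h1 : InT cs T ω) (h2 : cs.IsReduced ω) :
    cs.length (w * (cs.wordProd ω)⁻¹) + ω.length = cs.length w := by
  induction ω using List.reverseRecOn with
  | nil => simp
  | append_singleton ω i ih =>
    have hi : cs.simple i ∈ T := h1 i (by simp)
    have hr : cs.IsReduced ω := by
      have := h2.take ω.length
      rwa [List.take_append_of_le_length le_rfl, List.take_length] at this
    have ih := ih (fun j hj => h1 j (by simp [hj])) hr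
    obtain ⟨μ, hμ, hμ'⟩ := cs.exists_isReduced (w * (cs.wordProd ω)⁻¹)
    have hwμ : w = cs.wordProd (μ ++ ω) := by
      rw [wordProd_append, ← hμ']
      simp
    have hd := hw i hi
    have hd' : cs.IsRightDescent (cs.wordProd (μ ++ ω)) i := hwμ ▸ hd
    obtain ⟨j, hj, he⟩ := exchange cs hd'
    have hle : cs.length (w * (cs.wordProd (ω ++ [i]))⁻¹) + (ω ++ [i]).length ≤ cs.length w := by
      rcases eraseIdx_append_cases μ ω hj with ⟨hj', e⟩ | ⟨k, hk, e⟩
      · rw [e] at he
        have h3 : w * (cs.wordProd (ω ++ [i]))⁻¹ = cs.wordProd (μ.eraseIdx j) := by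
          have h4 : w = cs.wordProd (μ.eraseIdx j) * cs.wordProd ω * cs.simple i := by
            rw [← wordProd_append, ← he, ← hwμ]
            simp [mul_assoc]
          rw [h4, wordProd_append, wordProd_singleton]
          simp [mul_assoc]
        rw [h3]
        have h5 := cs.length_wordProd_le (μ.eraseIdx j)
        have h6 := List.length_eraseIdx_add_one hj'
        have h7 : cs.length (w * (cs.wordProd ω)⁻¹) = μ.length := by rw [hμ', hμ.eq]
        rw [List.length_append, List.length_singleton]
        omega
      · exfalso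
        rw [e, wordProd_append, wordProd_append, mul_assoc] at he
        have h3 : cs.wordProd (ω ++ [i]) = cs.wordProd (ω.eraseIdx k) := by
          rw [wordProd_append, wordProd_singleton]
          exact mul_left_cancel he
        have h4 := h2.eq
        rw [h3] at h4
        have h5 := cs.length_wordProd_le (ω.eraseIdx k)
        have h6 := List.length_eraseIdx_add_one hk
        rw [List.length_append, List.length_singleton] at h4
        omega
    refine le_antisymm hle ?_
    have h8 := cs.length_mul_le (w * (cs.wordProd (ω ++ [i]))⁻¹) (cs.wordProd (ω ++ [i]))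
    rw [inv_mul_cancel_right, h2.eq] at h8
    exact h8

/-- If `u` has minimal length in `u W_T` then `ℓ (u x) = ℓ u + ℓ x` for all `x` in `W_T`. -/
theorem short_word {u : W} (hu : ∀ y ∈ Subgroup.closure T, cs.length u ≤ cs.length (u * y))
    {ω : List B} (h1 : InT cs T ω) (h2 : cs.IsReduced ω) :
    cs.length (u * cs.wordProd ω) = cs.length u + ω.length := by
  induction ω using List.reverseRecOn with
  | nil => simp
  | append_singleton ω i ih =>
    have hi : cs.simple i ∈ T := h1 i (by simp)
    have h1' : InT cs T ω := fun j hj => h1 j (by simp [hj])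
    have hr : cs.IsReduced ω := by
      have := h2.take ω.length
      rwa [List.take_append_of_le_length le_rfl, List.take_length] at this
    have ih := ih h1' hr
    obtain ⟨μ, hμ, hμ'⟩ := cs.exists_isReduced u
    have hnd : ¬ cs.IsRightDescent (u * cs.wordProd ω) i := by
      intro hd
      have hd' : cs.IsRightDescent (cs.wordProd (μ ++ ω)) i := by
        rwa [wordProd_append, ← hμ']
      obtain ⟨j, hj, he⟩ := exchange cs hd'
      rcases eraseIdx_append_cases μ ω hj with ⟨hj', e⟩ | ⟨k, hk, e⟩
      · rw [e, wordProd_append, wordProd_append, ← hμ'] at he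
        have h3 := hu (cs.wordProd ω * cs.simple i * (cs.wordProd ω)⁻¹)
          (Subgroup.mul_mem _ (Subgroup.mul_mem _ h1'.wordProd_mem
            (Subgroup.subset_closure hi)) (Subgroup.inv_mem _ h1'.wordProd_mem))
        have h4 : u * (cs.wordProd ω * cs.simple i * (cs.wordProd ω)⁻¹) =
            cs.wordProd (μ.eraseIdx j) := by
          rw [← mul_assoc, ← mul_assoc, he]
          simp
        rw [h4, hμ', hμ.eq] at h3
        have h5 := cs.length_wordProd_le (μ.eraseIdx j)
        have h6 := List.length_eraseIdx_add_one hj'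
        omega
      · rw [e, wordProd_append, wordProd_append, mul_assoc] at he
        have h3 : cs.wordProd (ω ++ [i]) = cs.wordProd (ω.eraseIdx k) := by
          rw [wordProd_append, wordProd_singleton]
          exact mul_left_cancel he
        have h4 := h2.eq
        rw [h3] at h4
        have h5 := cs.length_wordProd_le (ω.eraseIdx k)
        have h6 := List.length_eraseIdx_add_one hk
        rw [List.length_append, List.length_singleton] at h4
        omega
    rw [wordProd_append, wordProd_singleton, ← mul_assoc, cs.not_isRightDescent_iff.1 hnd, ih]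
    simp [add_assoc]

end Pool.MP_f18604_gt.Cox
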