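import Mathlib
import Pool.Agent.Helper55.Cox.Defs
import Pool.Agent.Helper55.Cox.Parabolic

/-!
# Cosets of standard parabolic subgroups of a finite Coxeter group

Every coset `w W_T` has a unique longest and a unique shortest element. The height of a coset.
-/

set_option autoImplicit false

namespace Pool.MP_f18604_gt.Cox

open CoxeterSystem

section Group

variable {W : Type*} [Group W] {w u : W} {T T' : Finset W}

theorem mem_coset : u ∈ coset w T ↔ w⁻¹ * u ∈ Subgroup.closure (T : Set W) := Iff.rfl

theorem self_mem_coset (w : W) (T : Finset W) : w ∈ coset w T := by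
  rw [mem_coset]
  simp

theorem coset_eq (h : u ∈ coset w T) : coset u T = coset w T := by
  ext x
  rw [mem_coset, mem_coset]
  rw [mem_coset] at h
  constructor
  · intro hx
    have := Subgroup.mul_mem _ h hx
    simpa [mul_assoc] using this
  · intro hx
    have := Subgroup.mul_mem _ (Subgroup.inv_mem _ h) hx
    simpa [mul_assoc] using this

theorem mul_mem_coset (h : u ∈ coset w T) {y : W} (hy : y ∈ Subgroup.closure (T : Set W)) :
    u * y ∈ coset w T := by
  rw [mem_coset] at h ⊢
  rw [← mul_assoc]
  exact Subgroup.mul_mem _ h hy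

theorem inv_mul_mem (h : u ∈ coset w T) {v : W} (hv : v ∈ coset w T) :
    u⁻¹ * v ∈ Subgroup.closure (T : Set W) := by
  rw [← coset_eq h] at hv
  exact hv

theorem coset_empty (w : W) : coset w (∅ : Finset W) = {w} := by
  ext x
  rw [mem_coset, Set.mem_singleton_iff]
  simp only [Finset.coe_empty, Subgroup.closure_empty, Subgroup.mem_bot]
  exact ⟨fun h => (inv_mul_eq_one.1 h).symm, fun h => by rw [h]; simp⟩

theorem coset_mono (h : T ⊆ T') (hw : w ∈ coset u T') : coset w T ⊆ coset u T' := by
  intro x hx
  rw [← coset_eq hw]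
  exact Subgroup.closure_mono (Finset.coe_subset.2 h) hx

end Group

variable {B W : Type*} [Group W] {M : CoxeterMatrix B} (cs : CoxeterSystem M W)

/-- `T` consists of simple reflections -/
def Simp (T : Finset W) : Prop := ∀ t ∈ T, t ∈ Set.range cs.simple

/-- all elements of `T` are right descents of `w` -/
def Desc (w : W) (T : Finset W) : Prop := ∀ i, cs.simple i ∈ T → cs.IsRightDescent w i

/-- `u` is a shortest element of `u W_T` -/
def Short (u : W) (T : Finset W) : Prop :=
  ∀ y ∈ Subgroup.closure (T : Set W), cs.length u ≤ cs.length (u * y)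

variable {cs} {w u v : W} {T T' : Finset W}

theorem Simp.sub (h : Simp cs T) : (T : Set W) ⊆ Set.range cs.simple := fun t ht => h t ht

theorem coset_subset_iff (hT : Simp cs T) (hT' : Simp cs T') :
    coset w T ⊆ coset u T' ↔ w ∈ coset u T' ∧ T ⊆ T' := by
  constructor
  · intro h
    refine ⟨h (self_mem_coset w T), fun t ht => ?_⟩
    obtain ⟨i, rfl⟩ := hT t ht
    have h1 := h (mul_mem_coset (self_mem_coset w T) (Subgroup.subset_closure ht))
    have h2 := inv_mul_mem (h (self_mem_coset w T)) h1
    rw [inv_mul_cancel_left] at h2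
    exact simple_mem_of_mem hT'.sub h2
  · rintro ⟨h1, h2⟩
    exact coset_mono h2 h1

theorem coset_inj (hT : Simp cs T) (hT' : Simp cs T') (h : coset w T = coset w T') : T = T' :=
  Finset.Subset.antisymm ((coset_subset_iff hT hT').1 h.le).2
    ((coset_subset_iff hT' hT).1 h.ge).2

theorem Desc.lt (hT : Simp cs T) (hw : Desc cs w T) (hu : u ∈ coset w T) (hne : u ≠ w) :
    cs.length u < cs.length w := by
  have hx : u⁻¹ * w ∈ Subgroup.closure (T : Set W) := inv_mul_mem hu (self_mem_coset w T)
  obtain ⟨ω, h1, h2, h3⟩ := exists_reduced hT.sub hx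
  have h4 := long_word hw h1 h3
  rw [h2] at h4
  have h5 : w * (u⁻¹ * w)⁻¹ = u := by group
  rw [h5] at h4
  have h6 : ω.length ≠ 0 := by
    intro h0
    rw [List.length_eq_zero_iff.1 h0, wordProd_nil] at h2
    exact hne (inv_mul_eq_one.1 h2.symm)
  omega

theorem Short.lt (hT : Simp cs T) (hu : Short cs u T) (hv : v ∈ coset u T) (hne : v ≠ u) :
    cs.length u < cs.length v ∧ ∃ i, cs.simple i ∈ T ∧ cs.IsRightDescent v i := by
  have hx : u⁻¹ * v ∈ Subgroup.closure (T : Set W) := hv
  obtain ⟨ω, h1, h2, h3⟩ := exists_reduced hT.sub hx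
  have h4 := short_word hu h1 h3
  have h5 : u * cs.wordProd ω = v := by rw [h2]; group
  rw [h5] at h4
  rcases List.eq_nil_or_concat' ω with rfl | ⟨ω', i, rfl⟩
  · exfalso
    rw [wordProd_nil] at h2
    exact hne (inv_mul_eq_one.1 h2.symm).symm
  · refine ⟨by rw [h4]; simp, i, h1 i (by simp), ?_⟩
    have h6 : cs.IsReduced ω' := by
      have := h3.take ω'.length
      rwa [List.take_append_of_le_length le_rfl, List.take_length] at this
    have h7 := short_word hu (fun j hj => h1 j (by simp [hj])) h6
    unfold IsRightDescent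
    have h8 : v * cs.simple i = u * cs.wordProd ω' := by
      rw [← h5, wordProd_append, wordProd_singleton]
      simp [mul_assoc]
    rw [h8, h7, h4]
    simp

theorem exists_short (w : W) (T : Finset W) : ∃ u ∈ coset w T, Short cs u T := by
  classical
  obtain ⟨u, hu, hmin⟩ := (InvImage.wf cs.length wellFounded_lt).has_min (coset w T)
    ⟨w, self_mem_coset w T⟩
  exact ⟨u, hu, fun y hy => not_lt.1 (hmin _ (mul_mem_coset hu hy))⟩

theorem exists_desc [Finite W] (cs : CoxeterSystem M W) (w : W) (T : Finset W) :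
    ∃ u ∈ coset w T, Desc cs u T := by
  classical
  obtain ⟨u, hu, hmax⟩ := Set.exists_max_image (coset w T) cs.length (Set.toFinite _)
    ⟨w, self_mem_coset w T⟩
  refine ⟨u, hu, fun i hi => ?_⟩
  have h1 := hmax _ (mul_mem_coset hu (Subgroup.subset_closure hi))
  have h2 := cs.length_mul_simple_ne u i
  unfold IsRightDescent
  omega

/-- the highest length of an element of `C` -/
noncomputable def hi (cs : CoxeterSystem M W) (C : Set W) : ℕ := sSup (cs.length '' C)

/-- the lowest length of an element of `C` -/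
noncomputable def lo (cs : CoxeterSystem M W) (C : Set W) : ℕ := sInf (cs.length '' C)

/-- the height of a coset: cosets with a short longest element come first, and among those with
the same longest element the big ones -/
noncomputable def ht (cs : CoxeterSystem M W) (C : Set W) : ℕ := (hi cs C + 1) ^ 2 + lo cs C

theorem hi_coset (hT : Simp cs T) (hw : Desc cs w T) : hi cs (coset w T) = cs.length w := by
  apply IsGreatest.csSup_eq
  refine ⟨⟨w, self_mem_coset w T, rfl⟩, ?_⟩
  rintro _ ⟨u, hu, rfl⟩
  by_cases h : u = w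
  · rw [h]
  · exact (hw.lt hT hu h).le

theorem lo_coset (hT : Simp cs T) (hu : Short cs u T) : lo cs (coset u T) = cs.length u := by
  apply IsLeast.csInf_eq
  refine ⟨⟨u, self_mem_coset u T, rfl⟩, ?_⟩
  rintro _ ⟨v, hv, rfl⟩
  by_cases h : v = u
  · rw [h]
  · exact (hu.lt hT hv h).1.le

theorem lo_le_hi [Finite W] (hT : Simp cs T) (w : W) :
    lo cs (coset w T) ≤ hi cs (coset w T) := by
  obtain ⟨u, hu, hs⟩ := exists_short (cs := cs) w T
  obtain ⟨v, hv, hd⟩ := exists_desc cs w T
  rw [← coset_eq hu, lo_coset hT hs, coset_eq hu, ← coset_eq hv, hi_coset hT hd]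
  have h1 : u ∈ coset v T := by rwa [coset_eq hv]
  by_cases h : u = v
  · rw [h]
  · exact (hd.lt hT h1 h).le

/-- a coset with a smaller longest element is lower -/
theorem ht_lt_of_hi_lt [Finite W] (hT : Simp cs T) {C : Set W}
    (h : hi cs (coset w T) < hi cs C) : ht cs (coset w T) < ht cs C := by
  have h1 := lo_le_hi (cs := cs) hT w
  unfold ht
  nlinarith [Nat.zero_le (lo cs C)]

/-- among the cosets with longest element `w` the bigger ones are lower -/
theorem ht_lt_of_desc [Finite W] (hT : Simp cs T) (hT' : Simp cs T') (hw : Desc cs w T')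
    (hs : T ⊂ T') : ht cs (coset w T') < ht cs (coset w T) := by
  have hw' : Desc cs w T := fun i hi => hw i (hs.1 hi)
  obtain ⟨u, hu, hsu⟩ := exists_short (cs := cs) w T
  obtain ⟨v, hv, hsv⟩ := exists_short (cs := cs) w T'
  have e1 : lo cs (coset w T) = cs.length u := by rw [← coset_eq hu, lo_coset hT hsu]
  have e2 : lo cs (coset w T') = cs.length v := by rw [← coset_eq hv, lo_coset hT' hsv]
  unfold ht
  rw [hi_coset hT hw', hi_coset hT' hw, e1, e2]
  have hu' : u ∈ coset v T' := by
    rw [coset_eq hv]
    exact coset_mono hs.1 (self_mem_coset w T') hu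
  have hne : u ≠ v := by
    rintro rfl
    obtain ⟨t, ht, htn⟩ := Finset.exists_of_ssubset hs
    obtain ⟨i, rfl⟩ := hT' t ht
    -- `x = u⁻¹ w ∈ W_T` has the right descent `s_i`
    have hx : u⁻¹ * w ∈ Subgroup.closure (T : Set W) := inv_mul_mem hu (self_mem_coset w T)
    obtain ⟨ω, h1, h2, h3⟩ := exists_reduced hT.sub hx
    have h4 := short_word hsu h1 h3
    have h5 : u * cs.wordProd ω = w := by rw [h2]; group
    rw [h5] at h4
    have hx' : cs.wordProd ω * cs.simple i ∈ Subgroup.closure (T' : Set W) :=
      Subgroup.mul_mem _ (h2 ▸ Subgroup.closure_mono (Finset.coe_subset.2 hs.1) hx)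
        (Subgroup.subset_closure ht)
    obtain ⟨μ, k1, k2, k3⟩ := exists_reduced hT'.sub hx'
    have k4 := short_word hsv k1 k3
    have k5 : u * cs.wordProd μ = w * cs.simple i := by rw [k2, ← mul_assoc, h5]
    rw [k5] at k4
    have k6 := hw i ht
    unfold IsRightDescent at k6
    have k7 : cs.IsRightDescent (cs.wordProd ω) i := by
      unfold IsRightDescent
      rw [← k2, k3.eq, h3.eq]
      omega
    exact htn (mem_of_isRightDescent hT.sub (h2 ▸ hx) k7)
  have := (hsv.lt hT' hu' hne).1
  omega

end Pool.MP_f18604_gt.Cox
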