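import Mathlib
import Pool.Agent.Helper43.Gem.Gradient
import Pool.Agent.Helper55.Cox.Defs

/-!
# Discrete gradients from vertex orderings, exact form

`exists_gradient_exact` is `Gem.exists_gradient` (helper43) with the critical edges determined exactly; the
proof is the one given there.

`trivial_of_connected`: if all lower links are connected and only one vertex has no lower neighbour, then
every cocycle on the edges with values in a group is a coboundary.
-/

set_option autoImplicit false

namespace Pool.MP_f18604_gt.Cox

open Finset Pool.MP_f18604_gt.Gem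

variable {α : Type*}

section Construction

variable [DecidableEq α] {X : Set (Finset α)} {h : α → ℕ}
variable {dep : α → α → ℕ} {r : α → α} {par : α → α → α}

theorem exists_gradient_exact (hsing : ∀ σ ∈ X, ∀ v ∈ σ, ({v} : Finset α) ∈ X)
    (hdist : ∀ v w, v ≠ w → ({v, w} : Finset α) ∈ X → h v ≠ h w)
    (F : Forest X h dep r par) :
    ∃ D : DiscreteGradient X,
      (∀ v, D.Critical {v} ↔ ({v} : Finset α) ∈ X ∧ ∀ w, ¬ LN X h v w) ∧
      (∀ σ, σ.card = 2 → (D.Critical σ ↔
        ∃ v w, σ = {v, w} ∧ LN X h v w ∧ dep v w = 0 ∧ w ≠ r v)) := by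
  classical
  -- basic facts
  have rne : ∀ {v w}, LN X h v w → 0 < dep v w → w ≠ r v := by
    intro v w hl hd hh
    have := (F.root v w hl).2
    rw [← hh] at this; omega
  have parfacts : ∀ {v w}, LN X h v w → 0 < dep v w →
      LN X h v (par v w) ∧ ({v, w, par v w} : Finset α) ∈ X ∧ dep v (par v w) < dep v w :=
    fun {v w} hl hd => F.par v w hl hd
  have parne : ∀ {v w}, LN X h v w → 0 < dep v w → par v w ≠ w := by
    intro v w hl hd hh
    have := (parfacts hl hd).2.2
    rw [hh] at this; exact lt_irrefl _ this
  have card3 : ∀ {v w}, LN X h v w → 0 < dep v w → ({v, w, par v w} : Finset α).card = 3 := by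
    intro v w hl hd
    rw [card_insert_of_notMem, card_insert_of_notMem, card_singleton]
    · simp only [mem_singleton]; exact (parne hl hd).symm
    · simp only [mem_insert, mem_singleton, not_or]
      exact ⟨hl.ne, (parfacts hl hd).1.ne⟩
  have card2 : ∀ {v w}, LN X h v w → ({v, w} : Finset α).card = 2 := by
    intro v w hl; exact card_pair hl.ne
  -- shape of pairs
  have key : ∀ {v w v' w'}, LN X h v w → 0 < dep v w → LN X h v' w' → 0 < dep v' w' →
      ({v, w, par v w} : Finset α) = {v', w', par v' w'} → v = v' ∧ w = w' := by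
    intro v w v' w' hl hd hl' hd' he
    have p1 := parfacts hl hd
    have p2 := parfacts hl' hd'
    have hv : v ∈ ({v', w', par v' w'} : Finset α) := by rw [← he]; simp
    have hv' : v' ∈ ({v, w, par v w} : Finset α) := by rw [he]; simp
    have low : ∀ {v w}, LN X h v w → 0 < dep v w → ∀ x ∈ ({v, w, par v w} : Finset α), x ≠ v →
        h x < h v := by
      intro v w hl hd x hx hxv
      simp only [mem_insert, mem_singleton] at hx
      rcases hx with rfl | rfl | rfl
      · exact absurd rfl hxv
      · exact hl.1
      · exact (parfacts hl hd).1.1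
    have hvv : v = v' := by
      by_contra hne
      have a := low hl hd v' hv' (Ne.symm hne)
      have b := low hl' hd' v hv hne
      omega
    subst hvv
    refine ⟨rfl, ?_⟩
    have hw : w ∈ ({v, w', par v w'} : Finset α) := by rw [← he]; simp
    have hw' : w' ∈ ({v, w, par v w} : Finset α) := by rw [he]; simp
    simp only [mem_insert, mem_singleton] at hw hw'
    rcases hw with h1 | h1 | h1
    · exact absurd h1.symm hl.ne
    · exact h1
    · rcases hw' with h2 | h2 | h2
      · exact absurd h2.symm hl'.ne
      · exact h2.symm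
      · exfalso
        have a := p1.2.2; have b := p2.2.2
        rw [← h1] at b; rw [← h2] at a; omega
  refine ⟨{ pair := Pr X h dep r par
            mem := ?_
            up_unique := ?_
            down_unique := ?_
            no_both := ?_
            acyclic := ?_ }, ?_, ?_⟩
  · rintro σ τ (⟨v, hv⟩ | ⟨v, w, hw, hd⟩)
    · refine ⟨hsing _ hv.2 v (by simp), hv.2, by simp, ?_⟩
      rw [card2 hv]; simp
    · refine ⟨hw.2, (parfacts hw hd).2.1, ?_, ?_⟩
      · intro x hx; simp only [mem_insert, mem_singleton] at hx ⊢; tauto
      · rw [card3 hw hd, card2 hw]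
  · intro σ τ τ' h1 h2
    rcases h1 with ⟨v, hv⟩ | ⟨v, w, hw, hd⟩
    · generalize hs : ({v} : Finset α) = s at h2
      rcases h2 with ⟨v', hv'⟩ | ⟨v', w', hw', hd'⟩
      · have := Finset.singleton_injective hs; rw [this]
      · have := congrArg Finset.card hs; rw [card2 hw'] at this; simp at this
    · generalize hs : ({v, w} : Finset α) = s at h2
      rcases h2 with ⟨v', hv'⟩ | ⟨v', w', hw', hd'⟩
      · have := congrArg Finset.card hs; rw [card2 hw] at this; simp at this
      · obtain ⟨rfl, rfl⟩ := pair_eq_top hw.1 hw'.1 hs; rfl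
  · intro σ σ' τ h1 h2
    rcases h1 with ⟨v, hv⟩ | ⟨v, w, hw, hd⟩
    · generalize hs : ({v, r v} : Finset α) = s at h2
      rcases h2 with ⟨v', hv'⟩ | ⟨v', w', hw', hd'⟩
      · obtain ⟨rfl, _⟩ := pair_eq_top hv.1 hv'.1 hs; rfl
      · have := congrArg Finset.card hs; rw [card3 hw' hd', card2 hv] at this; omega
    · generalize hs : ({v, w, par v w} : Finset α) = s at h2
      rcases h2 with ⟨v', hv'⟩ | ⟨v', w', hw', hd'⟩
      · have := congrArg Finset.card hs; rw [card3 hw hd, card2 hv'] at this; omega
      · obtain ⟨rfl, rfl⟩ := key hw hd hw' hd' hs; rfl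
  · intro ρ σ τ h1 h2
    rcases h1 with ⟨v, hv⟩ | ⟨v, w, hw, hd⟩
    · generalize hs : ({v, r v} : Finset α) = s at h2
      rcases h2 with ⟨v', hv'⟩ | ⟨v', w', hw', hd'⟩
      · have := congrArg Finset.card hs; rw [card2 hv] at this; simp at this
      · obtain ⟨rfl, hh⟩ := pair_eq_top hv.1 hw'.1 hs
        exact rne hw' hd' hh.symm
    · generalize hs : ({v, w, par v w} : Finset α) = s at h2
      rcases h2 with ⟨v', hv'⟩ | ⟨v', w', hw', hd'⟩
      · have := congrArg Finset.card hs; rw [card3 hw hd] at this; simp at this
      · have := congrArg Finset.card hs; rw [card3 hw hd, card2 hw'] at this; omega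
  · -- acyclicity
    -- measure: for a one-element set `(2*h v + ...)`, use lexicographic order
    let m : Finset α → ℕ ×ₗ ℕ := fun σ =>
      toLex (σ.sup h, σ.sup (fun v => σ.sup (fun w => if h w < h v ∧ h v = σ.sup h then dep v w else 0)))
    have dsup : ∀ {v w : α}, h w < h v → m {v, w} = toLex (h v, dep v w) := by
      intro v w hvw
      have h1 : ({v, w} : Finset α).sup h = h v := by
        rw [sup_insert, sup_singleton]; exact max_eq_left hvw.le
      simp only [m]
      rw [h1]
      congr 1
      ext
      · rfl
      · simp only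
        rw [sup_insert, sup_singleton, sup_insert, sup_singleton, sup_insert, sup_singleton]
        have n1 : ¬ (h v < h w) := by omega
        simp [hvw, n1]
    have msing : ∀ v : α, m {v} = toLex (h v, 0) := by
      intro v
      simp only [m, sup_singleton]
      simp
    have dec : ∀ a b : Finset α, (∃ τ, Pr X h dep r par a τ ∧ Facet b τ ∧ b ≠ a) → m b < m a := by
      rintro a b ⟨τ, hp, hf, hba⟩
      rcases hp with ⟨v, hv⟩ | ⟨v, w, hw, hd⟩
      · -- b = {r v}
        have hb : b = {r v} := by
          have hc : b.card = 1 := by have := hf.2; rw [card2 hv] at this; omega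
          obtain ⟨x, rfl⟩ := card_eq_one.1 hc
          have hx : x ∈ ({v, r v} : Finset α) := hf.1 (by simp)
          simp only [mem_insert, mem_singleton] at hx
          rcases hx with rfl | rfl
          · exact absurd rfl hba
          · rfl
        rw [hb, msing, msing]
        exact Prod.Lex.toLex_lt_toLex.2 (Or.inl hv.1)
      · obtain ⟨p1, p2, p3⟩ := parfacts hw hd
        have hc : b.card = 2 := by have := hf.2; rw [card3 hw hd] at this; omega
        -- b omits exactly one element
        have hsub := hf.1
        by_cases hvb : v ∈ b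
        · -- b = {v, par v w}
          have hwb : w ∉ b := by
            intro hwb
            apply hba
            symm
            apply eq_of_subset_of_card_le
            · intro x hx; simp only [mem_insert, mem_singleton] at hx
              rcases hx with rfl | rfl <;> assumption
            · rw [hc, card2 hw]
          have hb : b = {v, par v w} := by
            apply eq_of_subset_of_card_le
            · intro x hx
              have := hsub hx
              simp only [mem_insert, mem_singleton] at this ⊢
              rcases this with rfl | rfl | rfl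
              · exact Or.inl rfl
              · exact absurd hx hwb
              · exact Or.inr rfl
            · rw [hc, card2 p1]
          rw [hb, dsup p1.1, dsup hw.1]
          exact Prod.Lex.toLex_lt_toLex.2 (Or.inr ⟨rfl, p3⟩)
        · rw [dsup hw.1]
          apply Prod.Lex.toLex_lt_toLex.2
          left
          have : b.sup h < h v := by
            rw [Finset.sup_lt_iff]
            · intro x hx
              have := hsub hx
              simp only [mem_insert, mem_singleton] at this
              rcases this with rfl | rfl | rfl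
              · exact absurd hx hvb
              · exact hw.1
              · exact p1.1
            · have := hw.1
              simp only [bot_eq_zero']; omega
          exact this
    intro σ hσ
    have : m σ < m σ := by
      have aux : ∀ a b, Relation.TransGen (fun a b => ∃ τ, Pr X h dep r par a τ ∧ Facet b τ ∧ b ≠ a) a b →
          m b < m a := by
        intro a b hab
        induction hab with
        | single h1 => exact dec _ _ h1
        | tail _ h2 ih => exact (dec _ _ h2).trans ih
      exact aux _ _ hσ
    exact lt_irrefl _ this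
  · -- critical vertices
    intro v
    constructor
    · rintro ⟨hv, hc⟩
      refine ⟨hv, fun w hw => ?_⟩
      exact (hc _).1 (Pr.base v (F.root v w hw).1)
    · rintro ⟨hv, hc⟩
      refine ⟨hv, fun τ => ⟨?_, ?_⟩⟩
      · intro hp
        simp only at hp
        generalize hs : ({v} : Finset α) = s at hp
        rcases hp with ⟨v', hv'⟩ | ⟨v', w', hw', hd'⟩
        · have := Finset.singleton_injective hs; subst this; exact hc _ hv'
        · have := congrArg Finset.card hs; rw [card2 hw'] at this; simp at this
      · intro hp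
        simp only at hp
        generalize hs : ({v} : Finset α) = s at hp
        rcases hp with ⟨v', hv'⟩ | ⟨v', w', hw', hd'⟩
        · have := congrArg Finset.card hs; rw [card2 hv'] at this; simp at this
        · have := congrArg Finset.card hs; rw [card3 hw' hd'] at this; simp at this
  · -- critical edges
    intro σ h2
    refine ⟨?_, ?_⟩
    swap
    · rintro ⟨v, w, rfl, hl, h0, hr⟩
      refine ⟨hl.2, fun τ => ⟨?_, ?_⟩⟩
      · intro hp
        simp only at hp
        generalize hs : ({v, w} : Finset α) = s at hp
        rcases hp with ⟨v', hv'⟩ | ⟨v', w', hw', hd'⟩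
        · have := congrArg Finset.card hs; rw [card2 hl] at this; simp at this
        · obtain ⟨rfl, rfl⟩ := pair_eq_top hl.1 hw'.1 hs
          omega
      · intro hp
        simp only at hp
        generalize hs : ({v, w} : Finset α) = s at hp
        rcases hp with ⟨v', hv'⟩ | ⟨v', w', hw', hd'⟩
        · obtain ⟨rfl, hh⟩ := pair_eq_top hl.1 hv'.1 hs
          exact hr hh
        · have := congrArg Finset.card hs; rw [card2 hl, card3 hw' hd'] at this; omega
    rintro ⟨hσ, hc⟩
    obtain ⟨x, y, hxy, rfl⟩ := card_eq_two.1 h2
    have main : ∀ v w : α, h w < h v → ({v, w} : Finset α) ∈ X →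
        (∀ τ, ¬ Pr X h dep r par {v, w} τ ∧ ¬ Pr X h dep r par τ {v, w}) →
        ∃ v' w', ({v, w} : Finset α) = {v', w'} ∧ LN X h v' w' ∧ dep v' w' = 0 ∧ w' ≠ r v' := by
      intro v w hvw hX hcr
      have hl : LN X h v w := ⟨hvw, hX⟩
      refine ⟨v, w, rfl, hl, ?_, ?_⟩
      · by_contra hd
        exact (hcr _).1 (Pr.step v w hl (Nat.pos_of_ne_zero hd))
      · rintro rfl
        exact (hcr _).2 (Pr.base v hl)
    rcases lt_or_gt_of_ne (hdist x y hxy hσ) with hlt | hlt
    · rw [pair_comm] at hσ hc ⊢
      exact main y x hlt hσ hc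
    · exact main x y hlt hσ hc

end Construction

section Trivial

variable {G : Type*} [Group G] (X : Set (Finset α)) (h : α → ℕ)

/-- lower neighbours, without decidable equality -/
def LNb (v w : α) : Prop := h w < h v ∧ ∃ σ ∈ X, v ∈ σ ∧ w ∈ σ

variable {X h}

open Classical in
/-- the gauge -/
noncomputable def gauge (X : Set (Finset α)) (h : α → ℕ) (φ : α → α → G) (v : α) : G :=
  if hv : ∃ r, LNb X h v r then gauge X h φ hv.choose * φ hv.choose v else 1
termination_by h v
decreasing_by exact hv.choose_spec.1

theorem trivial_of_connected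
    (hdist : ∀ σ ∈ X, ∀ v ∈ σ, ∀ w ∈ σ, v ≠ w → h v ≠ h w)
    (hc : ∀ v r w, LNb X h v r → LNb X h v w →
      Relation.ReflTransGen (fun a b => LNb X h v a ∧ LNb X h v b ∧
        ∃ σ ∈ X, v ∈ σ ∧ a ∈ σ ∧ b ∈ σ) r w)
    {φ : α → α → G} (hφ : ∀ σ ∈ X, ∀ a ∈ σ, ∀ b ∈ σ, ∀ c ∈ σ, φ a b * φ b c = φ a c) :
    ∃ ψ : α → G, ∀ σ ∈ X, ∀ a ∈ σ, ∀ b ∈ σ, φ a b = (ψ a)⁻¹ * ψ b := by
  have hself : ∀ σ ∈ X, ∀ a ∈ σ, φ a a = 1 := fun σ hσ a ha => by
    have := hφ σ hσ a ha a ha a ha
    exact mul_left_cancel (this.trans (mul_one _).symm)
  have hinv : ∀ σ ∈ X, ∀ a ∈ σ, ∀ b ∈ σ, φ a b = (φ b a)⁻¹ := fun σ hσ a ha b hb => by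
    have h1 := hφ σ hσ a ha b hb a ha
    rw [hself σ hσ a ha] at h1
    exact eq_inv_of_mul_eq_one_left h1
  set ψ := gauge X h φ with hψ
  have main : ∀ n, ∀ v, h v = n → ∀ w, LNb X h v w → φ w v = (ψ w)⁻¹ * ψ v := by
    intro n
    induction n using Nat.strong_induction_on with
    | _ n ih =>
      intro v hv w hw
      have hex : ∃ r, LNb X h v r := ⟨w, hw⟩
      have h0 : ψ v = ψ hex.choose * φ hex.choose v := by
        rw [hψ, gauge, dif_pos hex]
      have hr := hex.choose_spec
      have key := hc v _ w hr hw
      have goal : ∀ u, Relation.ReflTransGen (fun a b => LNb X h v a ∧ LNb X h v b ∧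
          ∃ σ ∈ X, v ∈ σ ∧ a ∈ σ ∧ b ∈ σ) hex.choose u → φ u v = (ψ u)⁻¹ * ψ v := by
        intro u hu
        induction hu with
        | refl => rw [h0]; simp
        | @tail a b _ hab ihu =>
          obtain ⟨ha, hb, σ, hσ, hvσ, haσ, hbσ⟩ := hab
          have e1 : φ b v = φ b a * φ a v := (hφ σ hσ b hbσ a haσ v hvσ).symm
          have e2 : φ b a = (ψ b)⁻¹ * ψ a := by
            by_cases hne : a = b
            · subst hne
              rw [hself σ hσ a haσ]
              simp
            · rcases lt_or_gt_of_ne (hdist σ hσ a haσ b hbσ hne) with hlt | hlt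
              · have := ih (h b) (hv ▸ hb.1) b rfl a ⟨hlt, σ, hσ, hbσ, haσ⟩
                rw [hinv σ hσ b hbσ a haσ, this]
                simp
              · exact ih (h a) (hv ▸ ha.1) a rfl b ⟨hlt, σ, hσ, haσ, hbσ⟩
          rw [e1, e2, ihu]
          simp [mul_assoc]
      exact goal w key
  refine ⟨ψ, fun σ hσ a ha b hb => ?_⟩
  by_cases hne : a = b
  · subst hne
    rw [hself σ hσ a ha]
    simp
  · rcases lt_or_gt_of_ne (hdist σ hσ a ha b hb hne) with hlt | hlt
    · exact main _ b rfl a ⟨hlt, σ, hσ, hb, ha⟩
    · have := main _ a rfl b ⟨hlt, σ, hσ, ha, hb⟩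
      rw [hinv σ hσ a ha b hb, this]
      simp

end Trivial

end Pool.MP_f18604_gt.Cox
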