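import Mathlib
import Pool.Agent.Helper55.Cox.Grad
import Pool.Agent.Helper55.Cox.Cosets

/-!
# Lower links in the reflection complex

The vertices of the reflection complex are numbered by `ht`.  The lower link of `w W_T` is connected if `T` is not empty;
the lower link of `{w}` has the components of the graph on the descents of `w`.
-/

set_option autoImplicit false
set_option linter.unusedSectionVars false

namespace Pool.MP_f18604_gt.Cox

open CoxeterSystem Pool.MP_f18604_gt.Gem

variable {B W : Type*} [Group W] {M : CoxeterMatrix B} {cs : CoxeterSystem M W}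
  {K : Set (Finset W)} {w u v : W} {T T' : Finset W} {C C' C'' : Set W}

theorem IsComplexOn.simp (hK : IsComplexOn cs K) (hT : T = ∅ ∨ T ∈ K) : Simp cs T := by
  rcases hT with rfl | hT
  · intro t ht
    simp at ht
  · exact hK.sub T hT

theorem cell_nonempty (hC : C ∈ cells K) : C.Nonempty := by
  obtain ⟨w, T, -, rfl⟩ := hC
  exact ⟨w, self_mem_coset w T⟩

theorem sing_mem_cells (K : Set (Finset W)) (w : W) : coset w ∅ ∈ cells K := ⟨w, ∅, Or.inl rfl, rfl⟩

theorem face_sub {σ τ : Finset (Set W)} (hσ : σ ∈ reflComplex K) (h : τ ⊆ σ) (hne : τ.Nonempty) :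
    τ ∈ reflComplex K :=
  ⟨hne, fun C hC => hσ.2.1 C (h hC), fun C hC C' hC' => hσ.2.2 C (h hC) C' (h hC')⟩

theorem sing_mem : ({C} : Finset (Set W)) ∈ reflComplex K ↔ C ∈ cells K := by
  constructor
  · intro h
    exact h.2.1 C (by simp)
  · intro h
    refine ⟨by simp, ?_, ?_⟩
    · intro D hD
      rw [Finset.mem_singleton] at hD
      rwa [hD]
    · intro D hD D' hD'
      rw [Finset.mem_singleton] at hD hD'
      rw [hD, hD']
      exact Or.inl le_rfl

theorem pair_mem [DecidableEq (Set W)] : ({C, C'} : Finset (Set W)) ∈ reflComplex K ↔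
    C ∈ cells K ∧ C' ∈ cells K ∧ (C ⊆ C' ∨ C' ⊆ C) := by
  constructor
  · intro h
    exact ⟨h.2.1 C (by simp), h.2.1 C' (by simp), h.2.2 C (by simp) C' (by simp)⟩
  · rintro ⟨h1, h2, h3⟩
    refine ⟨by simp, ?_, ?_⟩
    · intro D hD
      simp only [Finset.mem_insert, Finset.mem_singleton] at hD
      rcases hD with rfl | rfl <;> assumption
    · intro D hD D' hD'
      simp only [Finset.mem_insert, Finset.mem_singleton] at hD hD'
      rcases hD with rfl | rfl <;> rcases hD' with rfl | rfl
      · exact Or.inl le_rfl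
      · exact h3
      · exact h3.symm
      · exact Or.inl le_rfl

theorem triple_mem [DecidableEq (Set W)] (h0 : C ∈ cells K) (h1 : C' ∈ cells K)
    (h2 : C'' ∈ cells K) (h3 : C ⊆ C' ∨ C' ⊆ C) (h4 : C ⊆ C'' ∨ C'' ⊆ C)
    (h5 : C' ⊆ C'' ∨ C'' ⊆ C') : ({C, C', C''} : Finset (Set W)) ∈ reflComplex K := by
  refine ⟨by simp, ?_, ?_⟩
  · intro D hD
    simp only [Finset.mem_insert, Finset.mem_singleton] at hD
    rcases hD with rfl | rfl | rfl <;> assumption
  · intro D hD D' hD'
    simp only [Finset.mem_insert, Finset.mem_singleton] at hD hD'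
    rcases hD with rfl | rfl | rfl <;> rcases hD' with rfl | rfl | rfl
    · exact Or.inl le_rfl
    · exact h3
    · exact h4
    · exact h3.symm
    · exact Or.inl le_rfl
    · exact h5
    · exact h4.symm
    · exact h5.symm
    · exact Or.inl le_rfl

section Finite

variable [Finite W] [DecidableEq (Set W)]

theorem cell_top (hC : C ∈ cells K) :
    ∃ w T, (T = ∅ ∨ T ∈ K) ∧ C = coset w T ∧ Desc cs w T := by
  obtain ⟨w, T, hT, rfl⟩ := hC
  obtain ⟨u, hu, hd⟩ := exists_desc cs w T
  exact ⟨u, T, hT, (coset_eq hu).symm, hd⟩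

/-- the lower neighbours of a coset -/
theorem ln_coset (hK : IsComplexOn cs K) (hT : T = ∅ ∨ T ∈ K) (hw : Desc cs w T) :
    LN (reflComplex K) (ht cs) (coset w T) C ↔
      (C ∈ cells K ∧ C ⊆ coset w T ∧ w ∉ C) ∨
        ∃ T' ∈ K, T ⊂ T' ∧ Desc cs w T' ∧ C = coset w T' := by
  have hTs := hK.simp hT
  constructor
  · rintro ⟨hlt, hmem⟩
    obtain ⟨-, hC, hcmp⟩ := pair_mem.1 hmem
    obtain ⟨w', T', hT', rfl, hw'⟩ := cell_top (cs := cs) hC
    have hT's := hK.simp hT'
    rcases hcmp with hsub | hsub
    · -- the coset is contained in `C`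
      right
      have hmem' := hsub (self_mem_coset w T)
      have hww : w = w' := by
        by_contra hne
        have h1 := hw'.lt hT's hmem' hne
        rw [← hi_coset hTs hw, ← hi_coset hT's hw'] at h1
        have h2 := ht_lt_of_hi_lt hTs h1
        omega
      subst hww
      have hss := ((coset_subset_iff hTs hT's).1 hsub).2
      have hne : T ≠ T' := by
        rintro rfl
        exact lt_irrefl _ hlt
      have hst : T ⊂ T' := lt_of_le_of_ne hss hne
      refine ⟨T', ?_, hst, hw', rfl⟩
      rcases hT' with rfl | hT'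
      · exact absurd (Finset.subset_empty.1 hss) hne
      · exact hT'
    · left
      refine ⟨hC, hsub, fun hin => ?_⟩
      have hww : w' = w := by
        by_contra hne
        have h1 := hw.lt hTs (hsub (self_mem_coset w' T')) hne
        have h2 := hw'.lt hT's hin (Ne.symm hne)
        omega
      subst hww
      have hss := ((coset_subset_iff hT's hTs).1 hsub).2
      have hne : T' ≠ T := by
        rintro rfl
        exact lt_irrefl _ hlt
      have h3 := ht_lt_of_desc hT's hTs hw (lt_of_le_of_ne hss hne)
      omega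
  · rintro (⟨hC, hsub, hin⟩ | ⟨T', hT', hst, hw', rfl⟩)
    · refine ⟨?_, pair_mem.2 ⟨⟨w, T, hT, rfl⟩, hC, Or.inr hsub⟩⟩
      obtain ⟨w', T', hT', rfl, hw'⟩ := cell_top (cs := cs) hC
      have hT's := hK.simp hT'
      apply ht_lt_of_hi_lt hT's
      rw [hi_coset hTs hw, hi_coset hT's hw']
      refine hw.lt hTs (hsub (self_mem_coset w' T')) ?_
      rintro rfl
      exact hin (self_mem_coset w' T')
    · exact ⟨ht_lt_of_desc hTs (hK.sub T' hT') hw' hst, pair_mem.2 ⟨⟨w, T, hT, rfl⟩,
        ⟨w, T', Or.inr hT', rfl⟩, Or.inl (coset_mono hst.1 (self_mem_coset w T'))⟩⟩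

/-- a shortest element of the coset is not its longest element -/
theorem short_ne (hK : IsComplexOn cs K) (hT : T ∈ K) (hw : Desc cs w T) (hu : Short cs u T) :
    u ≠ w := by
  rintro rfl
  obtain ⟨t, ht⟩ := hK.nonempty T hT
  obtain ⟨i, rfl⟩ := hK.sub T hT t ht
  have h1 := hw i ht
  have h2 := hu _ (Subgroup.subset_closure ht)
  unfold IsRightDescent at h1
  omega

theorem ln_sing (hK : IsComplexOn cs K) (hT : T ∈ K) (hw : Desc cs w T) (hv : v ∈ coset w T)
    (hne : v ≠ w) : LN (reflComplex K) (ht cs) (coset w T) (coset v ∅) := by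
  rw [ln_coset hK (Or.inr hT) hw]
  refine Or.inl ⟨sing_mem_cells K v, coset_mono (Finset.empty_subset _) hv, ?_⟩
  rw [coset_empty, Set.mem_singleton_iff]
  exact Ne.symm hne

/-- The lower link of `w W_T` is connected if `T` is not empty. -/
theorem connected_of_mem (hK : IsComplexOn cs K) (hT : T ∈ K) (hw : Desc cs w T)
    (hu : Short cs u T) (huw : u ∈ coset w T) (hC : LN (reflComplex K) (ht cs) (coset w T) C) :
    Relation.ReflTransGen (fun a b => LN (reflComplex K) (ht cs) (coset w T) a ∧
      LN (reflComplex K) (ht cs) (coset w T) b ∧ ({coset w T, a, b} : Finset (Set W)) ∈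
        reflComplex K) (coset u ∅) C := by
  have hTs := hK.sub T hT
  have hcell : coset w T ∈ cells K := ⟨w, T, Or.inr hT, rfl⟩
  have hsing : ∀ v ∈ coset w T, coset v (∅ : Finset W) ⊆ coset w T := fun v hv =>
    coset_mono (Finset.empty_subset _) hv
  have key : ∀ n, ∀ v ∈ coset w T, v ≠ w → cs.length v = n →
      Relation.ReflTransGen (fun a b => LN (reflComplex K) (ht cs) (coset w T) a ∧
        LN (reflComplex K) (ht cs) (coset w T) b ∧ ({coset w T, a, b} : Finset (Set W)) ∈
          reflComplex K) (coset u ∅) (coset v ∅) := by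
    intro n
    induction n using Nat.strong_induction_on with
    | _ n ih =>
      intro v hv hvw hn
      by_cases hvu : v = u
      · rw [hvu]
      · have hv' : v ∈ coset u T := by rwa [coset_eq huw]
        obtain ⟨-, i, hi, hd⟩ := hu.lt hTs hv' hvu
        have hlt : cs.length (v * cs.simple i) < cs.length v := hd
        have hvs : v * cs.simple i ∈ coset w T := mul_mem_coset hv (Subgroup.subset_closure hi)
        have hvl := hw.lt hTs hv hvw
        have hvsw : v * cs.simple i ≠ w := by
          intro h
          rw [h] at hlt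
          omega
        refine (ih _ (hn ▸ hlt) _ hvs hvsw rfl).trans ?_
        -- the edge
        have hiK : ({cs.simple i} : Finset W) ∈ K := hK.vertex i
        have hecell : coset v {cs.simple i} ∈ cells K := ⟨v, _, Or.inr hiK, rfl⟩
        have hesub : coset v {cs.simple i} ⊆ coset w T :=
          coset_mono (by simpa using hi) hv
        have hevs : v * cs.simple i ∈ coset v {cs.simple i} :=
          mul_mem_coset (self_mem_coset _ _) (Subgroup.subset_closure (by simp))
        have hwe : w ∉ coset v {cs.simple i} := by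
          intro hin
          have hdv : Desc cs v {cs.simple i} := by
            intro j hj
            rw [Finset.mem_singleton] at hj
            unfold IsRightDescent
            rw [hj]
            exact hd
          have := hdv.lt (hK.sub _ hiK) hin (Ne.symm hvw)
          omega
        have l1 := ln_sing hK hT hw hvs hvsw
        have l2 : LN (reflComplex K) (ht cs) (coset w T) (coset v {cs.simple i}) :=
          (ln_coset hK (Or.inr hT) hw).2 (Or.inl ⟨hecell, hesub, hwe⟩)
        have l3 := ln_sing hK hT hw hv hvw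
        have t1 : ({coset w T, coset (v * cs.simple i) ∅, coset v {cs.simple i}} :
            Finset (Set W)) ∈ reflComplex K :=
          triple_mem hcell (sing_mem_cells K _) hecell (Or.inr (hsing _ hvs)) (Or.inr hesub)
            (Or.inl (coset_mono (Finset.empty_subset _) hevs))
        have t2 : ({coset w T, coset v {cs.simple i}, coset v ∅} :
            Finset (Set W)) ∈ reflComplex K :=
          triple_mem hcell hecell (sing_mem_cells K _) (Or.inr hesub) (Or.inr (hsing _ hv))
            (Or.inr (coset_mono (Finset.empty_subset _) (self_mem_coset _ _)))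
        exact (Relation.ReflTransGen.single (b := coset v {cs.simple i}) ⟨l1, l2, t1⟩).tail
          ⟨l2, l3, t2⟩
  rcases (ln_coset hK (Or.inr hT) hw).1 hC with ⟨hCc, hsub, hin⟩ | ⟨T', hT', hst, hw', rfl⟩
  · obtain ⟨v, hv⟩ := cell_nonempty hCc
    have hvw : v ≠ w := by
      rintro rfl
      exact hin hv
    refine (key _ v (hsub hv) hvw rfl).tail ⟨ln_sing hK hT hw (hsub hv) hvw, hC, ?_⟩
    refine triple_mem hcell (sing_mem_cells K _) hCc (Or.inr (hsing _ (hsub hv))) (Or.inr hsub)
      (Or.inl ?_)
    rw [coset_empty]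
    exact Set.singleton_subset_iff.2 hv
  · have hne := short_ne hK hT hw hu
    refine Relation.ReflTransGen.single ⟨ln_sing hK hT hw huw hne, hC, ?_⟩
    refine triple_mem hcell (sing_mem_cells K _) ⟨w, T', Or.inr hT', rfl⟩
      (Or.inr (hsing _ huw)) (Or.inl (coset_mono hst.1 (self_mem_coset w T'))) (Or.inl ?_)
    exact (hsing _ huw).trans (coset_mono hst.1 (self_mem_coset w T'))

/-- the lower neighbours of `{w}` -/
theorem ln_empty (hK : IsComplexOn cs K) :
    LN (reflComplex K) (ht cs) (coset w ∅) C ↔
      ∃ T' ∈ K, Desc cs w T' ∧ C = coset w T' := by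
  rw [ln_coset hK (Or.inl rfl) (fun i hi => by simp at hi)]
  constructor
  · rintro (⟨hC, hsub, hin⟩ | ⟨T', hT', -, hw', rfl⟩)
    · exfalso
      obtain ⟨v, hv⟩ := cell_nonempty hC
      have := hsub hv
      rw [coset_empty, Set.mem_singleton_iff] at this
      rw [this] at hv
      exact hin hv
    · exact ⟨T', hT', hw', rfl⟩
  · rintro ⟨T', hT', hw', rfl⟩
    refine Or.inr ⟨T', hT', ?_, hw', rfl⟩
    exact Finset.empty_ssubset.2 (hK.nonempty T' hT')

end Finite

end Pool.MP_f18604_gt.Cox
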