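import Mathlib
import Pool.Agent.Helper55.Cox.Links

/-!
# The discrete gradient and its critical edges
-/

set_option autoImplicit false
set_option linter.unusedSectionVars false

namespace Pool.MP_f18604_gt.Cox

open Pool.MP_f18604_gt.Gem

section General

variable {α : Type*} [DecidableEq α] {X : Set (Finset α)} {h : α → ℕ}

theorem rch_of_refl {v r w : α} (hw : Relation.ReflTransGen (fun a b => LN X h v a ∧ LN X h v b ∧
    ({v, a, b} : Finset α) ∈ X) r w) : ∃ n, Rch X h v r n w := by
  induction hw with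
  | refl => exact ⟨0, rfl⟩
  | tail _ hbc ih =>
    obtain ⟨n, hn⟩ := ih
    exact ⟨n + 1, _, hn, hbc⟩

/-- A discrete gradient from a choice of one root `ρ v w` for each component of the lower link of
`v`; `r v` is the root which is matched with `v`. -/
theorem exists_gradient_rho (hsing : ∀ σ ∈ X, ∀ v ∈ σ, ({v} : Finset α) ∈ X)
    (hdist : ∀ v w, v ≠ w → ({v, w} : Finset α) ∈ X → h v ≠ h w) (ρ : α → α → α) (r : α → α)
    (h1 : ∀ v w, LN X h v w → ∃ n, Rch X h v (ρ v w) n w)
    (h2 : ∀ v a b, LN X h v a → LN X h v b → ({v, a, b} : Finset α) ∈ X → ρ v a = ρ v b)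
    (h3 : ∀ v w, LN X h v w → LN X h v (r v) ∧ ρ v (r v) = r v) :
    ∃ D : DiscreteGradient X,
      (∀ v, D.Critical {v} ↔ ({v} : Finset α) ∈ X ∧ ∀ w, ¬ LN X h v w) ∧
      (∀ σ, σ.card = 2 → (D.Critical σ ↔
        ∃ v w, σ = {v, w} ∧ LN X h v w ∧ ρ v w = w ∧ w ≠ r v)) := by
  classical
  set dep : α → α → ℕ := fun v w => sInf {n | Rch X h v (ρ v w) n w} with hdep
  have hmem : ∀ v w, LN X h v w → Rch X h v (ρ v w) (dep v w) w := fun v w hw =>
    Nat.sInf_mem (s := {n | Rch X h v (ρ v w) n w}) (h1 v w hw)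
  have h0 : ∀ v w, LN X h v w → (dep v w = 0 ↔ ρ v w = w) := by
    intro v w hw
    constructor
    · intro he
      have := hmem v w hw
      rw [he] at this
      exact this.symm
    · intro he
      exact Nat.le_zero.1 (Nat.sInf_le (s := {n | Rch X h v (ρ v w) n w}) (show w = ρ v w from he.symm))
  have hp : ∀ v w, ∃ w', LN X h v w → 0 < dep v w →
      LN X h v w' ∧ ({v, w, w'} : Finset α) ∈ X ∧ dep v w' < dep v w := by
    intro v w
    by_cases hw : LN X h v w ∧ 0 < dep v w
    · obtain ⟨m, hm⟩ : ∃ m, dep v w = m + 1 := ⟨dep v w - 1, by omega⟩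
      have hf := hmem v w hw.1
      rw [hm] at hf
      obtain ⟨u, hu, hu1, _, hu3⟩ := hf
      refine ⟨u, fun _ _ => ⟨hu1, ?_, ?_⟩⟩
      · have : ({v, w, u} : Finset α) = {v, u, w} := by
          ext x; simp only [Finset.mem_insert, Finset.mem_singleton]; tauto
        rw [this]; exact hu3
      · rw [hm]
        refine Nat.lt_succ_of_le (Nat.sInf_le (s := {n | Rch X h v (ρ v u) n u}) ?_)
        change Rch X h v (ρ v u) m u
        rw [h2 v u w hu1 hw.1 hu3]
        exact hu
    · exact ⟨w, fun a b => absurd ⟨a, b⟩ hw⟩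
  choose par hpar using hp
  have F : Forest X h dep r par :=
    { root := fun v w hw => ⟨(h3 v w hw).1, (h0 v _ (h3 v w hw).1).2 (h3 v w hw).2⟩
      par := hpar }
  obtain ⟨D, hD1, hD2⟩ := exists_gradient_exact hsing hdist F
  refine ⟨D, hD1, fun σ hσ => (hD2 σ hσ).trans ?_⟩
  constructor
  · rintro ⟨v, w, e, hl, hd, hr⟩
    exact ⟨v, w, e, hl, (h0 v w hl).1 hd, hr⟩
  · rintro ⟨v, w, e, hl, hd, hr⟩
    exact ⟨v, w, e, hl, (h0 v w hl).2 hd, hr⟩

end General

open CoxeterSystem

variable {B W : Type*} [Group W] {M : CoxeterMatrix B} {cs : CoxeterSystem M W}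
  {K : Set (Finset W)} {w u v : W} {T T' : Finset W} {C C' C'' : Set W}

/-- the right descents of `w` -/
abbrev DV (cs : CoxeterSystem M W) (w : W) := {s : W // ∃ i, s = cs.simple i ∧ cs.IsRightDescent w i}

theorem desc_sing (s : DV cs w) : Desc cs w {(s : W)} := by
  obtain ⟨s, i, rfl, hi⟩ := s
  intro j hj
  rw [Finset.mem_singleton] at hj
  unfold IsRightDescent
  rw [hj]
  exact hi

/-- representatives of the components -/
noncomputable def rep (c : (descGraph cs K w).ConnectedComponent) : DV cs w := c.exists_rep.choose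

theorem mk_rep (c : (descGraph cs K w).ConnectedComponent) :
    (descGraph cs K w).connectedComponentMk (rep c) = c := c.exists_rep.choose_spec

theorem rep_inj : Function.Injective (rep : (descGraph cs K w).ConnectedComponent → DV cs w) :=
  fun c c' h => by rw [← mk_rep c, ← mk_rep c', h]

/-- the vertex of the link of `{w}` which represents the component of `s` -/
noncomputable def pt (cs : CoxeterSystem M W) (K : Set (Finset W)) (w : W)
    (c : (descGraph cs K w).ConnectedComponent) : Set W := coset w {(rep c : W)}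

open Classical in
/-- root of a lower neighbour of `{w}` -/
noncomputable def rho0 (cs : CoxeterSystem M W) (K : Set (Finset W)) (w : W) (C : Set W) : Set W :=
  if hs : ∃ s : DV cs w, coset w {(s : W)} ⊆ C then
    pt cs K w ((descGraph cs K w).connectedComponentMk hs.choose) else ∅

open Classical in
/-- the distinguished root -/
noncomputable def r0 (cs : CoxeterSystem M W) (K : Set (Finset W)) (w : W) : Set W :=
  if h : Nonempty (DV cs w) then
    pt cs K w ((descGraph cs K w).connectedComponentMk h.some) else ∅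

theorem simp_sing (s : DV cs w) : Simp cs {(s : W)} := by
  intro t ht
  rw [Finset.mem_singleton] at ht
  obtain ⟨s, i, rfl, hi⟩ := s
  exact ⟨i, ht.symm⟩

theorem sing_mem_K (hK : IsComplexOn cs K) (s : DV cs w) : {(s : W)} ∈ K := by
  obtain ⟨s, i, rfl, hi⟩ := s
  exact hK.vertex i

theorem toDV (hT : T ∈ K) (hK : IsComplexOn cs K) (hw : Desc cs w T) {t : W} (ht : t ∈ T) :
    ∃ s : DV cs w, (s : W) = t := by
  obtain ⟨i, rfl⟩ := hK.sub T hT t ht
  exact ⟨⟨_, i, rfl, hw i ht⟩, rfl⟩

theorem rho0_eq (hK : IsComplexOn cs K) (hT : T ∈ K) (s : DV cs w)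
    (hs : (s : W) ∈ T) :
    rho0 cs K w (coset w T) = pt cs K w ((descGraph cs K w).connectedComponentMk s) := by
  have hex : ∃ s : DV cs w, coset w {(s : W)} ⊆ coset w T :=
    ⟨s, coset_mono (Finset.singleton_subset_iff.2 hs) (self_mem_coset w T)⟩
  unfold rho0
  rw [dif_pos hex]
  congr 1
  have h1 := ((coset_subset_iff (simp_sing hex.choose) (hK.sub T hT)).1 hex.choose_spec).2
  rw [Finset.singleton_subset_iff] at h1
  by_cases hne : hex.choose = s
  · rw [hne]
  · refine SimpleGraph.ConnectedComponent.sound (SimpleGraph.Adj.reachable ?_)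
    exact ⟨hne, T, hT, h1, hs⟩

section Finite

variable [Finite W] [DecidableEq (Set W)]

theorem ln_pt (hK : IsComplexOn cs K) (s : DV cs w) :
    LN (reflComplex K) (ht cs) (coset w ∅) (coset w {(s : W)}) :=
  (ln_empty hK).2 ⟨_, sing_mem_K hK s, desc_sing s, rfl⟩

theorem walk_reach (hK : IsComplexOn cs K) (s t : DV cs w)
    (hst : (descGraph cs K w).Reachable s t) :
    Relation.ReflTransGen (fun a b => LN (reflComplex K) (ht cs) (coset w ∅) a ∧
      LN (reflComplex K) (ht cs) (coset w ∅) b ∧ ({coset w ∅, a, b} : Finset (Set W)) ∈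
        reflComplex K) (coset w {(s : W)}) (coset w {(t : W)}) := by
  classical
  obtain ⟨p⟩ := hst
  induction p with
  | nil => exact Relation.ReflTransGen.refl
  | @cons a b c hab p ih =>
    refine Relation.ReflTransGen.trans ?_ ih
    obtain ⟨-, T0, hT0, ha, hb⟩ := hab
    set T1 : Finset W := T0.filter (fun x : W => x = (a : W) ∨ x = (b : W)) with hT1
    have ha1 : (a : W) ∈ T1 := by rw [hT1, Finset.mem_filter]; exact ⟨ha, Or.inl rfl⟩
    have hb1 : (b : W) ∈ T1 := by rw [hT1, Finset.mem_filter]; exact ⟨hb, Or.inr rfl⟩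
    have hT1K : T1 ∈ K := hK.down T0 hT0 T1 (Finset.filter_subset _ _) ⟨_, ha1⟩
    have hd : Desc cs w T1 := by
      intro i hi
      rw [hT1, Finset.mem_filter] at hi
      rcases hi.2 with h | h
      · exact desc_sing a i (Finset.mem_singleton.2 h)
      · exact desc_sing b i (Finset.mem_singleton.2 h)
    have hl : LN (reflComplex K) (ht cs) (coset w ∅) (coset w T1) :=
      (ln_empty hK).2 ⟨T1, hT1K, hd, rfl⟩
    have c0 := sing_mem_cells K w
    have c1 : coset w T1 ∈ cells K := ⟨w, T1, Or.inr hT1K, rfl⟩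
    have ca : coset w {(a : W)} ∈ cells K := ⟨w, _, Or.inr (sing_mem_K hK a), rfl⟩
    have cb : coset w {(b : W)} ∈ cells K := ⟨w, _, Or.inr (sing_mem_K hK b), rfl⟩
    have s0 : ∀ T : Finset W, coset w ∅ ⊆ coset w T := fun T =>
      coset_mono (Finset.empty_subset _) (self_mem_coset w T)
    have t1 : ({coset w ∅, coset w {(a : W)}, coset w T1} : Finset (Set W)) ∈ reflComplex K :=
      triple_mem c0 ca c1 (Or.inl (s0 _)) (Or.inl (s0 _))
        (Or.inl (coset_mono (Finset.singleton_subset_iff.2 ha1) (self_mem_coset w _)))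
    have t2 : ({coset w ∅, coset w T1, coset w {(b : W)}} : Finset (Set W)) ∈ reflComplex K :=
      triple_mem c0 c1 cb (Or.inl (s0 _)) (Or.inl (s0 _))
        (Or.inr (coset_mono (Finset.singleton_subset_iff.2 hb1) (self_mem_coset w _)))
    exact (Relation.ReflTransGen.single (b := coset w T1) ⟨ln_pt hK a, hl, t1⟩).tail
      ⟨hl, ln_pt hK b, t2⟩

theorem reach_of_mem (hK : IsComplexOn cs K) (hT : T ∈ K) (hw : Desc cs w T) (s t : DV cs w)
    (hs : (s : W) ∈ T) (hst : (descGraph cs K w).Reachable t s) :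
    Relation.ReflTransGen (fun a b => LN (reflComplex K) (ht cs) (coset w ∅) a ∧
      LN (reflComplex K) (ht cs) (coset w ∅) b ∧ ({coset w ∅, a, b} : Finset (Set W)) ∈
        reflComplex K) (coset w {(t : W)}) (coset w T) := by
  refine (walk_reach hK t s hst).tail ⟨ln_pt hK s, (ln_empty hK).2 ⟨T, hT, hw, rfl⟩, ?_⟩
  exact triple_mem (sing_mem_cells K w) ⟨w, _, Or.inr (sing_mem_K hK s), rfl⟩
    ⟨w, T, Or.inr hT, rfl⟩ (Or.inl (coset_mono (Finset.empty_subset _) (self_mem_coset w _)))
    (Or.inl (coset_mono (Finset.empty_subset _) (self_mem_coset w _)))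
    (Or.inl (coset_mono (Finset.singleton_subset_iff.2 hs) (self_mem_coset w _)))

end Finite

theorem coset_empty_inj (h : coset w (∅ : Finset W) = coset u ∅) : w = u := by
  rw [coset_empty, coset_empty] at h
  exact Set.singleton_injective h

open Classical in
/-- a shortest element of a coset -/
noncomputable def short (cs : CoxeterSystem M W) (C : Set W) : W :=
  if h : ∃ u ∈ C, ∀ v ∈ C, cs.length u ≤ cs.length v then h.choose else 1

theorem short_spec (T : Finset W) (w : W) :
    short cs (coset w T) ∈ coset w T ∧ Short cs (short cs (coset w T)) T := by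
  obtain ⟨u, hu, hs⟩ := exists_short (cs := cs) w T
  have hex : ∃ u ∈ coset w T, ∀ v ∈ coset w T, cs.length u ≤ cs.length v := by
    refine ⟨u, hu, fun v hv => ?_⟩
    have := hs (u⁻¹ * v) (inv_mul_mem hu hv)
    rwa [mul_inv_cancel_left] at this
  have hc := hex.choose_spec
  have he : short cs (coset w T) = hex.choose := by
    unfold short
    rw [dif_pos hex]
  rw [he]
  exact ⟨hc.1, fun y hy => hc.2 _ (mul_mem_coset hc.1 hy)⟩

open Classical in
/-- the root function -/
noncomputable def rho (cs : CoxeterSystem M W) (K : Set (Finset W)) (v C : Set W) : Set W :=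
  if hv : ∃ w, v = coset w (∅ : Finset W) then rho0 cs K hv.choose C else coset (short cs v) ∅

open Classical in
/-- the distinguished root -/
noncomputable def rr (cs : CoxeterSystem M W) (K : Set (Finset W)) (v : Set W) : Set W :=
  if hv : ∃ w, v = coset w (∅ : Finset W) then r0 cs K hv.choose else coset (short cs v) ∅

theorem rho_empty : rho cs K (coset w ∅) C = rho0 cs K w C := by
  have hv : ∃ w', coset w (∅ : Finset W) = coset w' (∅ : Finset W) := ⟨w, rfl⟩
  unfold rho
  rw [dif_pos hv, ← coset_empty_inj hv.choose_spec]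

theorem rr_empty : rr cs K (coset w ∅) = r0 cs K w := by
  have hv : ∃ w', coset w (∅ : Finset W) = coset w' (∅ : Finset W) := ⟨w, rfl⟩
  unfold rr
  rw [dif_pos hv, ← coset_empty_inj hv.choose_spec]

theorem not_sing (hK : IsComplexOn cs K) (hT : T ∈ K) :
    ¬ ∃ w', coset w T = coset w' (∅ : Finset W) := by
  rintro ⟨w', h⟩
  have h1 := ((coset_subset_iff (hK.sub T hT) (fun t ht => by simp at ht)).1 h.le).2
  exact (hK.nonempty T hT).ne_empty (Finset.subset_empty.1 h1)

theorem rho_mem (hK : IsComplexOn cs K) (hT : T ∈ K) :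
    rho cs K (coset w T) C = coset (short cs (coset w T)) ∅ := by
  unfold rho
  rw [dif_neg (not_sing hK hT)]

theorem rr_mem (hK : IsComplexOn cs K) (hT : T ∈ K) :
    rr cs K (coset w T) = coset (short cs (coset w T)) ∅ := by
  unfold rr
  rw [dif_neg (not_sing hK hT)]

end Pool.MP_f18604_gt.Cox
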