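import Mathlib
import Pool.Agent.Helper55.Cox.Defs

/-!
# The spaces of cocycles and coboundaries
-/

set_option autoImplicit false

namespace Pool.MP_f18604_gt.Cox

variable {α : Type*}

theorem isCocycle_zero (X : Set (Finset α)) : IsCocycle X 0 := fun _ _ _ _ _ _ _ _ => add_zero _

theorem isCocycle_add {X : Set (Finset α)} {φ φ' : α → α → ZMod 2} (h : IsCocycle X φ)
    (h' : IsCocycle X φ') : IsCocycle X (φ + φ') := fun σ hσ a ha b hb c hc => by
  change φ a b + φ' a b + (φ b c + φ' b c) = φ a c + φ' a c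
  rw [← h σ hσ a ha b hb c hc, ← h' σ hσ a ha b hb c hc]
  ring

theorem isCocycle_smul {X : Set (Finset α)} (x : ZMod 2) {φ : α → α → ZMod 2}
    (h : IsCocycle X φ) : IsCocycle X (x • φ) := fun σ hσ a ha b hb c hc => by
  change x * φ a b + x * φ b c = x * φ a c
  rw [← h σ hσ a ha b hb c hc]
  ring

theorem isCoboundary_zero (X : Set (Finset α)) : IsCoboundary X 0 :=
  ⟨0, fun _ _ _ _ _ _ => (add_zero _).symm⟩

theorem isCoboundary_add {X : Set (Finset α)} {φ φ' : α → α → ZMod 2} (h : IsCoboundary X φ)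
    (h' : IsCoboundary X φ') : IsCoboundary X (φ + φ') := by
  obtain ⟨ψ, hψ⟩ := h
  obtain ⟨ψ', hψ'⟩ := h'
  refine ⟨ψ + ψ', fun σ hσ a ha b hb => ?_⟩
  change φ a b + φ' a b = ψ a + ψ' a + (ψ b + ψ' b)
  rw [hψ σ hσ a ha b hb, hψ' σ hσ a ha b hb]
  ring

theorem isCoboundary_smul {X : Set (Finset α)} (x : ZMod 2) {φ : α → α → ZMod 2}
    (h : IsCoboundary X φ) : IsCoboundary X (x • φ) := by
  obtain ⟨ψ, hψ⟩ := h
  refine ⟨x • ψ, fun σ hσ a ha b hb => ?_⟩
  change x * φ a b = x * ψ a + x * ψ b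
  rw [hψ σ hσ a ha b hb]
  ring

/-- The space of 1-cocycles. -/
def cocycles (X : Set (Finset α)) : Submodule (ZMod 2) (α → α → ZMod 2) where
  carrier := {φ | IsCocycle X φ}
  zero_mem' := isCocycle_zero X
  add_mem' := isCocycle_add
  smul_mem' := fun x _ => isCocycle_smul x

/-- The subspace of the coboundaries. -/
def coboundaries (X : Set (Finset α)) : Submodule (ZMod 2) (cocycles X) where
  carrier := {φ | IsCoboundary X φ.1}
  zero_mem' := isCoboundary_zero X
  add_mem' := isCoboundary_add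
  smul_mem' := fun x _ => isCoboundary_smul x

end Pool.MP_f18604_gt.Cox
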