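import Mathlib
import Pool.Agent.Helper55.Cox.Count
import Pool.Agent.Helper55.Cox.Submod

/-!
# Cocycles on the reflection complex

Let `w ∈ W` and let `A` be the set of the simple reflections which are not right descents of `w`. The
chambers of `w W_A` form a part of the reflection complex; its outer walls have the types in the set of the right
descents of `w`. For each component `D` of the graph on these descents there is a cocycle with
support in this part, which counts the walls of a type in `D`.
-/

set_option autoImplicit false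
set_option linter.unusedSectionVars false

namespace Pool.MP_f18604_gt.Cox

open CoxeterSystem

variable {B W : Type*} [Group W] {M : CoxeterMatrix B} {cs : CoxeterSystem M W}
  {K : Set (Finset W)} {w u v : W} {T T' : Finset W} {C C' C'' : Set W}

/-- components of the graph on the descents -/
abbrev CC (cs : CoxeterSystem M W) (K : Set (Finset W)) (w : W) :=
  (descGraph cs K w).ConnectedComponent

section

variable [Finite W]

open Classical in
/-- the simple reflections which are not right descents of `w` -/
noncomputable def asc (cs : CoxeterSystem M W) (w : W) : Finset W :=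
  (Set.toFinite {x : W | ∃ i, x = cs.simple i ∧ ¬ cs.IsRightDescent w i}).toFinset

theorem mem_asc {x : W} : x ∈ asc cs w ↔ ∃ i, x = cs.simple i ∧ ¬ cs.IsRightDescent w i := by
  unfold asc
  rw [Set.Finite.mem_toFinset]
  rfl

theorem simp_asc : Simp cs (asc cs w) := by
  intro t ht
  obtain ⟨i, rfl, -⟩ := mem_asc.1 ht
  exact ⟨i, rfl⟩

theorem short_asc : Short cs w (asc cs w) := by
  obtain ⟨u, hu, hs⟩ := exists_short (cs := cs) w (asc cs w)
  have h1 : w ∈ coset u (asc cs w) := by
    rw [coset_eq hu]
    exact self_mem_coset _ _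
  by_cases h : w = u
  · rw [← h] at hs
    exact hs
  · exfalso
    obtain ⟨-, i, hi, hd⟩ := hs.lt simp_asc h1 h
    obtain ⟨j, hj, hj'⟩ := mem_asc.1 hi
    apply hj'
    unfold IsRightDescent at hd ⊢
    rwa [← hj]

/-- `C` meets `w W_A` -/
def On (cs : CoxeterSystem M W) (w : W) (C : Set W) : Prop := ∃ u ∈ C, u ∈ coset w (asc cs w)

/-- the type of `C` meets `D` -/
def Typ (cs : CoxeterSystem M W) (K : Set (Finset W)) (w : W) (D : CC cs K w) (C : Set W) : Prop :=
  ∃ s : DV cs w, (descGraph cs K w).connectedComponentMk s = D ∧ ∃ u ∈ C, u * (s : W) ∈ C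

open Classical in
/-- the cocycle -/
noncomputable def coc (cs : CoxeterSystem M W) (K : Set (Finset W)) (w : W) (D : CC cs K w)
    (C C' : Set W) : ZMod 2 :=
  if On cs w C ∧ On cs w C' then
    (if Typ cs K w D C then 1 else 0) + (if Typ cs K w D C' then 1 else 0) else 0

theorem typ_iff (hT : Simp cs T) (D : CC cs K w) : Typ cs K w D (coset u T) ↔
    ∃ s : DV cs w, (descGraph cs K w).connectedComponentMk s = D ∧ (s : W) ∈ T := by
  constructor
  · rintro ⟨s, hs, v, hv, hvs⟩
    refine ⟨s, hs, ?_⟩
    have h := inv_mul_mem hv hvs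
    rw [inv_mul_cancel_left] at h
    obtain ⟨s, i, rfl, hi⟩ := s
    exact simple_mem_of_mem hT.sub h
  · rintro ⟨s, hs, h⟩
    exact ⟨s, hs, u, self_mem_coset u T,
      mul_mem_coset (self_mem_coset u T) (Subgroup.subset_closure h)⟩

theorem On.mono (h : On cs w C) (hs : C ⊆ C') : On cs w C' := by
  obtain ⟨u, hu, hA⟩ := h
  exact ⟨u, hs hu, hA⟩

/-- chambers which are not longer than `w` are off, except `w` itself -/
theorem not_on (hu : cs.length u ≤ cs.length w) (hne : u ≠ w) : ¬ On cs w (coset u ∅) := by
  rintro ⟨v, hv, hvA⟩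
  rw [coset_empty, Set.mem_singleton_iff] at hv
  subst hv
  have := (short_asc (cs := cs) (w := w)).lt simp_asc hvA hne
  omega

theorem on_self (T : Finset W) : On cs w (coset w T) :=
  ⟨w, self_mem_coset _ _, self_mem_coset _ _⟩

theorem typ_eq (hK : IsComplexOn cs K) (D : CC cs K w) (hx : C ∈ cells K) (hy : C' ∈ cells K)
    (hz : C'' ∈ cells K) (hxy : C ⊆ C') (hyz : C' ⊆ C'') (hny : On cs w C')
    (hnx : ¬ On cs w C) : Typ cs K w D C' ↔ Typ cs K w D C'' := by
  obtain ⟨u, huy, huA⟩ := hny
  obtain ⟨w', T', hT', rfl⟩ := hy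
  obtain ⟨w'', T'', hT'', rfl⟩ := hz
  have h1 : coset w' T' = coset u T' := (coset_eq huy).symm
  have h2 : coset w'' T'' = coset u T'' := (coset_eq (hyz huy)).symm
  rw [h1] at hxy hyz
  rw [h2] at hyz
  rw [h1, h2]
  have hTs' := hK.simp hT'
  have hTs'' := hK.simp hT''
  have hsub := ((coset_subset_iff hTs' hTs'').1 hyz).2
  have hex : ∃ a ∈ T', a ∉ asc cs w := by
    by_contra hall
    push Not at hall
    obtain ⟨v, hv⟩ := cell_nonempty hx
    apply hnx
    refine ⟨v, hv, ?_⟩
    have h3 : u⁻¹ * v ∈ Subgroup.closure (T' : Set W) := hxy hv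
    have h4 := mul_mem_coset huA (Subgroup.closure_mono (fun a ha => hall a ha) h3)
    rwa [mul_inv_cancel_left] at h4
  obtain ⟨a, ha, har⟩ := hex
  obtain ⟨i, rfl⟩ := hTs' a ha
  have hi : cs.IsRightDescent w i := by
    by_contra hi
    exact har (mem_asc.2 ⟨i, rfl, hi⟩)
  set a' : DV cs w := ⟨cs.simple i, i, rfl, hi⟩ with ha'
  have hK'' : T'' ∈ K := by
    rcases hT'' with rfl | h
    · exact absurd (hsub ha) (by simp)
    · exact h
  rw [typ_iff hTs', typ_iff hTs'']
  constructor
  · rintro ⟨s, hs, hsT⟩
    exact ⟨s, hs, hsub hsT⟩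
  · rintro ⟨s, hs, hsT⟩
    refine ⟨a', ?_, ha⟩
    rw [← hs]
    by_cases he : a' = s
    · rw [he]
    · exact SimpleGraph.ConnectedComponent.sound
        (SimpleGraph.Adj.reachable ⟨he, T'', hK'', hsub ha, hsT⟩)

theorem coc_cocycle (hK : IsComplexOn cs K) (D : CC cs K w) :
    coc cs K w D ∈ cocycles (reflComplex K) := by
  classical
  intro σ hσ a ha b hb c hc
  -- if exactly one of three is not on then the types of the two others agree
  have key : ∀ x ∈ σ, ∀ y ∈ σ, ∀ z ∈ σ, ¬ On cs w x → On cs w y → On cs w z →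
      (Typ cs K w D y ↔ Typ cs K w D z) := by
    intro x hx y hy z hz hnx hny hnz
    have e1 : x ⊆ y := by
      rcases hσ.2.2 x hx y hy with h | h
      · exact h
      · exact absurd (hny.mono h) hnx
    have e2 : x ⊆ z := by
      rcases hσ.2.2 x hx z hz with h | h
      · exact h
      · exact absurd (hnz.mono h) hnx
    rcases hσ.2.2 y hy z hz with h | h
    · exact typ_eq hK D (hσ.2.1 x hx) (hσ.2.1 y hy) (hσ.2.1 z hz) e1 h hny hnx
    · exact (typ_eq hK D (hσ.2.1 x hx) (hσ.2.1 z hz) (hσ.2.1 y hy) e2 h hnz hnx).symm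
  have two : ∀ x : ZMod 2, x + x = 0 := CharTwo.add_self_eq_zero
  unfold coc
  by_cases hna : On cs w a
  · by_cases hnb : On cs w b
    · by_cases hnc : On cs w c
      · simp only [hna, hnb, hnc, and_self, if_true]
        generalize (if Typ cs K w D a then (1 : ZMod 2) else 0) = x
        generalize (if Typ cs K w D b then (1 : ZMod 2) else 0) = y
        generalize (if Typ cs K w D c then (1 : ZMod 2) else 0) = z
        calc x + y + (y + z) = x + z + (y + y) := by ring
          _ = x + z := by rw [two, add_zero]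
      · simp only [hna, hnb, hnc, and_false, and_self, if_true, if_false, add_zero]
        rw [if_congr (key c hc a ha b hb hnc hna hnb) rfl rfl, two]
    · by_cases hnc : On cs w c
      · simp only [hna, hnb, hnc, and_false, false_and, and_self, if_true, if_false, add_zero]
        rw [if_congr (key b hb a ha c hc hnb hna hnc) rfl rfl, two]
      · simp [hnb, hnc]
  · by_cases hnb : On cs w b
    · by_cases hnc : On cs w c
      · simp only [hna, hnb, hnc, false_and, and_self, if_true, if_false, zero_add]
        rw [if_congr (key a ha b hb c hc hna hnb hnc) rfl rfl, two]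
      · simp [hna, hnc]
    · simp [hna, hnb]

end

end Pool.MP_f18604_gt.Cox
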