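import Mathlib
import Pool.Agent.Helper55.Cox.Count

/-!
# The discrete gradient of a reflection complex
-/

set_option autoImplicit false
set_option linter.unusedSectionVars false

namespace Pool.MP_f18604_gt.Cox

open Pool.MP_f18604_gt.Gem CoxeterSystem

variable {B W : Type*} [Group W] {M : CoxeterMatrix B} {cs : CoxeterSystem M W}
  {K : Set (Finset W)} {w u v : W} {T T' : Finset W} {C C' C'' : Set W}

theorem ht_ne [Finite W] (hK : IsComplexOn cs K) (hC : C ∈ cells K) (hC' : C' ∈ cells K)
    (hsub : C ⊆ C') (hne : C ≠ C') : ht cs C ≠ ht cs C' := by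
  obtain ⟨w, T, hT, rfl, hw⟩ := cell_top (cs := cs) hC
  obtain ⟨w', T', hT', rfl, hw'⟩ := cell_top (cs := cs) hC'
  have hTs := hK.simp hT
  have hTs' := hK.simp hT'
  by_cases h : w = w'
  · subst h
    have h1 := ((coset_subset_iff hTs hTs').1 hsub).2
    have h2 : T ≠ T' := by
      rintro rfl
      exact hne rfl
    exact (ht_lt_of_desc hTs hTs' hw' (lt_of_le_of_ne h1 h2)).ne'
  · apply ne_of_lt
    apply ht_lt_of_hi_lt hTs
    rw [hi_coset hTs hw, hi_coset hTs' hw']
    exact hw'.lt hTs' (hsub (self_mem_coset w T)) h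

theorem pt_root (hK : IsComplexOn cs K) (c : (descGraph cs K w).ConnectedComponent) :
    rho0 cs K w (pt cs K w c) = pt cs K w c := by
  unfold pt
  rw [rho0_eq hK (sing_mem_K hK (rep c)) (rep c) (by simp), mk_rep]
  rfl

theorem pt_inj (c c' : (descGraph cs K w).ConnectedComponent)
    (h : pt cs K w c = pt cs K w c') : c = c' := by
  unfold pt at h
  have h1 := coset_inj (simp_sing (rep c)) (simp_sing (rep c')) h
  exact rep_inj (Subtype.ext (Finset.singleton_injective h1))

theorem exists_main [Finite W] (hK : IsComplexOn cs K) [DecidableEq (Set W)] :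
    ∃ D : DiscreteGradient (reflComplex K),
      (∀ v, D.Critical {v} ↔ ({v} : Finset (Set W)) ∈ reflComplex K ∧
        ∀ w, ¬ LN (reflComplex K) (ht cs) v w) ∧
      (∀ σ, σ.card = 2 → (D.Critical σ ↔
        ∃ v w, σ = {v, w} ∧ LN (reflComplex K) (ht cs) v w ∧ rho cs K v w = w ∧
          w ≠ rr cs K v)) := by
  have hcell : ∀ {v w : Set W}, LN (reflComplex K) (ht cs) v w → v ∈ cells K := fun hl =>
    (pair_mem.1 hl.2).1
  apply exists_gradient_rho
  · intro σ hσ v hv
    exact face_sub hσ (Finset.singleton_subset_iff.2 hv) (by simp)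
  · intro v w hne hvw
    obtain ⟨h1, h2, h3⟩ := pair_mem.1 hvw
    rcases h3 with h3 | h3
    · exact ht_ne hK h1 h2 h3 hne
    · exact (ht_ne hK h2 h1 h3 hne.symm).symm
  · intro v w hl
    obtain ⟨w0, T, hT, rfl, hw⟩ := cell_top (cs := cs) (hcell hl)
    rcases hT with rfl | hT
    · obtain ⟨T', hT', hd, rfl⟩ := (ln_empty hK).1 hl
      obtain ⟨t, ht⟩ := hK.nonempty T' hT'
      obtain ⟨s, rfl⟩ := toDV hT' hK hd ht
      rw [rho_empty, rho0_eq hK hT' s ht]
      apply rch_of_refl
      unfold pt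
      exact reach_of_mem hK hT' hd s _ ht (SimpleGraph.ConnectedComponent.exact (mk_rep _))
    · rw [rho_mem hK hT]
      apply rch_of_refl
      have hs := short_spec (cs := cs) T w0
      exact connected_of_mem hK hT hw hs.2 hs.1 hl
  · intro v a b ha hb hab
    obtain ⟨w0, T, hT, rfl, hw⟩ := cell_top (cs := cs) (hcell ha)
    rcases hT with rfl | hT
    · obtain ⟨T1, hT1, hd1, rfl⟩ := (ln_empty hK).1 ha
      obtain ⟨T2, hT2, hd2, rfl⟩ := (ln_empty hK).1 hb
      have hcmp : coset w0 T1 ⊆ coset w0 T2 ∨ coset w0 T2 ⊆ coset w0 T1 :=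
        hab.2.2 _ (by simp) _ (by simp)
      rw [rho_empty, rho_empty]
      rcases hcmp with h | h
      · obtain ⟨t, ht⟩ := hK.nonempty T1 hT1
        obtain ⟨s, rfl⟩ := toDV hT1 hK hd1 ht
        have h1 := ((coset_subset_iff (hK.sub _ hT1) (hK.sub _ hT2)).1 h).2 ht
        rw [rho0_eq hK hT1 s ht, rho0_eq hK hT2 s h1]
      · obtain ⟨t, ht⟩ := hK.nonempty T2 hT2
        obtain ⟨s, rfl⟩ := toDV hT2 hK hd2 ht
        have h1 := ((coset_subset_iff (hK.sub _ hT2) (hK.sub _ hT1)).1 h).2 ht
        rw [rho0_eq hK hT1 s h1, rho0_eq hK hT2 s ht]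
    · rw [rho_mem hK hT, rho_mem hK hT]
  · intro v w hl
    obtain ⟨w0, T, hT, rfl, hw⟩ := cell_top (cs := cs) (hcell hl)
    rcases hT with rfl | hT
    · obtain ⟨T1, hT1, hd1, rfl⟩ := (ln_empty hK).1 hl
      obtain ⟨t, ht⟩ := hK.nonempty T1 hT1
      obtain ⟨s, rfl⟩ := toDV hT1 hK hd1 ht
      have hne : Nonempty (DV cs w0) := ⟨s⟩
      have hr : rr cs K (coset w0 ∅) =
          pt cs K w0 ((descGraph cs K w0).connectedComponentMk hne.some) := by
        rw [rr_empty]
        unfold r0
        rw [dif_pos hne]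
      rw [hr]
      refine ⟨ln_pt hK _, ?_⟩
      rw [rho_empty, pt_root hK]
    · have hs := short_spec (cs := cs) T w0
      rw [rr_mem hK hT, rho_mem hK hT]
      exact ⟨ln_sing hK hT hw hs.1 (short_ne hK hT hw hs.2), rfl⟩

theorem unique_vertex [Finite W] [DecidableEq (Set W)] (hK : IsComplexOn cs K)
    {D : DiscreteGradient (reflComplex K)}
    (hD : ∀ v, D.Critical {v} ↔ ({v} : Finset (Set W)) ∈ reflComplex K ∧
        ∀ w, ¬ LN (reflComplex K) (ht cs) v w) :
    ∃! σ, D.Critical σ ∧ σ.card = 1 := by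
  refine ⟨{coset 1 ∅}, ⟨(hD _).2 ⟨sing_mem.2 (sing_mem_cells K 1), ?_⟩, by simp⟩, ?_⟩
  · intro C hC
    obtain ⟨T, hT, hd, rfl⟩ := (ln_empty hK).1 hC
    obtain ⟨t, ht⟩ := hK.nonempty T hT
    obtain ⟨i, rfl⟩ := hK.sub T hT t ht
    exact cs.not_isRightDescent_one i (hd i ht)
  · rintro σ ⟨hc, h1⟩
    obtain ⟨v, rfl⟩ := Finset.card_eq_one.1 h1
    obtain ⟨hv, hn⟩ := (hD v).1 hc
    obtain ⟨w, T, hT, rfl, hw⟩ := cell_top (cs := cs) (sing_mem.1 hv)
    rcases hT with rfl | hT
    · by_cases h1 : w = 1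
      · rw [h1]
      · exfalso
        obtain ⟨i, hi⟩ := cs.exists_rightDescent_of_ne_one h1
        exact hn _ (ln_pt hK (⟨_, i, rfl, hi⟩ : DV cs w))
    · exfalso
      have hs := short_spec (cs := cs) T w
      exact hn _ (ln_sing hK hT hw hs.1 (short_ne hK hT hw hs.2))

theorem count_edges [Fintype W] [DecidableEq (Set W)] (hK : IsComplexOn cs K)
    {D : DiscreteGradient (reflComplex K)}
    (hD : ∀ σ, σ.card = 2 → (D.Critical σ ↔
        ∃ v w, σ = {v, w} ∧ LN (reflComplex K) (ht cs) v w ∧ rho cs K v w = w ∧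
          w ≠ rr cs K v)) :
    {σ | D.Critical σ ∧ σ.card = 2}.ncard = ∑ w, (descComp cs K w - 1) := by
  classical
  have hfin : ∀ w, Finite (descGraph cs K w).ConnectedComponent := fun w => inferInstance
  let hft : ∀ w, Fintype (descGraph cs K w).ConnectedComponent := fun w =>
    @Fintype.ofFinite _ (hfin w)
  set P : Finset ((w : W) × (descGraph cs K w).ConnectedComponent) :=
    Finset.univ.sigma (fun w => Finset.univ.filter (fun c => pt cs K w c ≠ r0 cs K w)) with hP
  set F : ((w : W) × (descGraph cs K w).ConnectedComponent) → Finset (Set W) :=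
    fun x => {coset x.1 ∅, pt cs K x.1 x.2} with hF
  have hlt : ∀ (w : W) (c : (descGraph cs K w).ConnectedComponent),
      LN (reflComplex K) (ht cs) (coset w ∅) (pt cs K w c) := fun w c => ln_pt hK (rep c)
  have hset : {σ | D.Critical σ ∧ σ.card = 2} = ((P.image F : Finset (Finset (Set W))) :
      Set (Finset (Set W))) := by
    ext σ
    simp only [Set.mem_ofPred_eq, Finset.coe_image, Set.mem_image, Finset.mem_coe]
    constructor
    · rintro ⟨hc, h2⟩
      obtain ⟨v, C, rfl, hl, hr, hne⟩ := (hD σ h2).1 hc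
      obtain ⟨w, T, hT, rfl, hw⟩ := cell_top (cs := cs) (pair_mem.1 hl.2).1
      rcases hT with rfl | hT
      · obtain ⟨T1, hT1, hd1, rfl⟩ := (ln_empty hK).1 hl
        obtain ⟨t, ht⟩ := hK.nonempty T1 hT1
        obtain ⟨s, rfl⟩ := toDV hT1 hK hd1 ht
        rw [rho_empty, rho0_eq hK hT1 s ht] at hr
        rw [rr_empty, ← hr] at hne
        refine ⟨⟨w, (descGraph cs K w).connectedComponentMk s⟩, ?_, ?_⟩
        · rw [hP, Finset.mem_sigma, Finset.mem_filter]
          exact ⟨Finset.mem_univ _, Finset.mem_univ _, hne⟩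
        · rw [hF]
          simp only
          rw [hr]
      · exfalso
        rw [rho_mem hK hT] at hr
        rw [rr_mem hK hT] at hne
        exact hne hr.symm
    · rintro ⟨⟨w, c⟩, hx, rfl⟩
      rw [hP, Finset.mem_sigma, Finset.mem_filter] at hx
      have h2 : (F ⟨w, c⟩).card = 2 := Finset.card_pair (hlt w c).ne
      refine ⟨(hD _ h2).2 ⟨_, _, rfl, hlt w c, ?_, ?_⟩, h2⟩
      · rw [rho_empty, pt_root hK]
      · rw [rr_empty]
        exact hx.2.2
  rw [hset, Set.ncard_coe_finset, Finset.card_image_of_injOn, hP, Finset.card_sigma]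
  · refine Finset.sum_congr rfl fun w _ => ?_
    have hκ : descComp cs K w = Fintype.card (descGraph cs K w).ConnectedComponent := by
      unfold descComp
      exact Nat.card_eq_fintype_card
    rw [hκ]
    by_cases hne : Nonempty (DV cs w)
    · have hr : r0 cs K w = pt cs K w ((descGraph cs K w).connectedComponentMk hne.some) := by
        unfold r0
        rw [dif_pos hne]
      have : (Finset.univ.filter (fun c => pt cs K w c ≠ r0 cs K w)) =
          Finset.univ.erase ((descGraph cs K w).connectedComponentMk hne.some) := by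
        ext c
        simp only [Finset.mem_filter, Finset.mem_univ, true_and, Finset.mem_erase, and_true]
        rw [hr]
        constructor
        · intro h he
          exact h (by rw [he])
        · intro h he
          exact h (pt_inj _ _ he)
      rw [this, Finset.card_erase_of_mem (Finset.mem_univ _), Finset.card_univ]
    · have hemp : IsEmpty (descGraph cs K w).ConnectedComponent :=
        ⟨fun c => hne ⟨rep c⟩⟩
      rw [Fintype.card_eq_zero, Finset.card_eq_zero]
      exact Finset.eq_empty_of_forall_notMem fun c => hemp.elim c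
  · rintro ⟨w, c⟩ - ⟨w', c'⟩ - he
    rw [hF] at he
    simp only at he
    obtain ⟨h1, h2⟩ := pair_eq_top (hlt w c).1 (hlt w' c').1 he
    have hw := coset_empty_inj h1
    subst hw
    rw [pt_inj c c' h2]

end Pool.MP_f18604_gt.Cox
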