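import Mathlib
import Pool.Agent.Helper55.Cox.Cocycle
import Pool.Agent.Helper55.Cox.Main

/-!
# The first Betti number of a reflection complex
-/

set_option autoImplicit false
set_option linter.unusedSectionVars false

namespace Pool.MP_f18604_gt.Cox

open Pool.MP_f18604_gt.Gem CoxeterSystem

section General

variable {α : Type*} {X : Set (Finset α)} {h : α → ℕ}

theorem two_zero (x : ZMod 2) : x + x = 0 := CharTwo.add_self_eq_zero x

theorem coc_self {φ : α → α → ZMod 2} (hφ : φ ∈ cocycles X) {σ : Finset α} (hσ : σ ∈ X) {a : α}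
    (ha : a ∈ σ) : φ a a = 0 := by
  have := hφ σ hσ a ha a ha a ha
  rw [two_zero] at this
  exact this.symm

theorem coc_symm {φ : α → α → ZMod 2} (hφ : φ ∈ cocycles X) {σ : Finset α} (hσ : σ ∈ X) {a b : α}
    (ha : a ∈ σ) (hb : b ∈ σ) : φ a b = φ b a := by
  have := hφ σ hσ a ha b hb a ha
  rw [coc_self hφ hσ ha] at this
  exact CharTwo.add_eq_zero.1 this

theorem cob_of_roots [DecidableEq α] (hsub : ∀ σ ∈ X, ∀ a ∈ σ, ∀ b ∈ σ, ({a, b} : Finset α) ∈ X)
    (hdist : ∀ σ ∈ X, ∀ v ∈ σ, ∀ w ∈ σ, v ≠ w → h v ≠ h w)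
    {φ : α → α → ZMod 2} (hφ : φ ∈ cocycles X) (ψ : α → ZMod 2)
    (hroot : ∀ v w, LN X h v w → ∃ u, φ v u = ψ v + ψ u ∧
      Relation.ReflTransGen (fun a b => LN X h v a ∧ LN X h v b ∧ ({v, a, b} : Finset α) ∈ X) u w) :
    ∀ σ ∈ X, ∀ a ∈ σ, ∀ b ∈ σ, φ a b = ψ a + ψ b := by
  have main : ∀ n, ∀ v, h v = n → ∀ w, LN X h v w → φ v w = ψ v + ψ w := by
    intro n
    induction n using Nat.strong_induction_on with
    | _ n ih =>
      intro v hv w hw
      obtain ⟨u, hu, huw⟩ := hroot v w hw
      clear hw
      induction huw with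
      | refl => exact hu
      | @tail a b _ hab ihu =>
        obtain ⟨ha, hb, hX⟩ := hab
        have e1 : φ v b = φ v a + φ a b :=
          (hφ _ hX v (by simp) a (by simp) b (by simp)).symm
        have e2 : φ a b = ψ a + ψ b := by
          by_cases hne : a = b
          · subst hne
            rw [coc_self hφ hX (by simp), two_zero]
          · have hab := hsub _ hX a (by simp) b (by simp)
            rcases lt_or_gt_of_ne (hdist _ hX a (by simp) b (by simp) hne) with hlt | hlt
            · rw [coc_symm hφ hX (a := a) (b := b) (by simp) (by simp),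
                ih (h b) (hv ▸ hb.1) b rfl a ⟨hlt, by rwa [Finset.pair_comm] at hab⟩, add_comm]
            · exact ih (h a) (hv ▸ ha.1) a rfl b ⟨hlt, hab⟩
        rw [e1, e2, ihu]
        calc ψ v + ψ a + (ψ a + ψ b) = ψ v + ψ b + (ψ a + ψ a) := by ring
          _ = ψ v + ψ b := by rw [two_zero, add_zero]
  intro σ hσ a ha b hb
  by_cases hne : a = b
  · subst hne
    rw [coc_self hφ hσ ha, two_zero]
  · rcases lt_or_gt_of_ne (hdist σ hσ a ha b hb hne) with hlt | hlt
    · rw [coc_symm hφ hσ ha hb, main _ b rfl a ⟨hlt, hsub σ hσ b hb a ha⟩, add_comm]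
    · exact main _ a rfl b ⟨hlt, hsub σ hσ a ha b hb⟩

/-- evaluation of a cocycle on an edge -/
def ev (X : Set (Finset α)) (a b : α) : cocycles X →ₗ[ZMod 2] ZMod 2 where
  toFun φ := φ.1 a b
  map_add' _ _ := rfl
  map_smul' _ _ := rfl

theorem ev_apply (a b : α) (φ : cocycles X) : ev X a b φ = φ.1 a b := rfl

end General

variable {B W : Type*} [Group W] {M : CoxeterMatrix B} {cs : CoxeterSystem M W}
  {K : Set (Finset W)} {w u v : W} {T T' : Finset W} {C C' C'' : Set W}

/-- the distinguished component -/
noncomputable def rootc (cs : CoxeterSystem M W) (K : Set (Finset W)) (w : W)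
    (h : Nonempty (DV cs w)) : CC cs K w := (descGraph cs K w).connectedComponentMk h.some

open Classical in
/-- the sum of a cocycle over a descending path from `{u}` to `{1}` -/
noncomputable def PWf (cs : CoxeterSystem M W) (K : Set (Finset W)) :
    ℕ → W → (cocycles (reflComplex K) →ₗ[ZMod 2] ZMod 2)
  | 0, _ => 0
  | n + 1, u => if h : Nonempty (DV cs u) then
      ev _ (coset u ∅) (coset u {(rep (rootc cs K u h) : W)}) +
        ev _ (coset u {(rep (rootc cs K u h) : W)}) (coset (u * (rep (rootc cs K u h) : W)) ∅) +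
        PWf cs K n (u * (rep (rootc cs K u h) : W))
    else 0

/-- the sum of a cocycle over a descending path from `{u}` to `{1}` -/
noncomputable def PW (cs : CoxeterSystem M W) (K : Set (Finset W)) (u : W) :
    cocycles (reflComplex K) →ₗ[ZMod 2] ZMod 2 := PWf cs K (cs.length u) u

theorem length_desc (s : DV cs w) : cs.length w = cs.length (w * (s : W)) + 1 := by
  obtain ⟨s, i, rfl, hi⟩ := s
  exact ((cs.isRightDescent_iff).1 hi).symm

theorem PW_eq (h : Nonempty (DV cs u)) : PW cs K u =
    ev _ (coset u ∅) (coset u {(rep (rootc cs K u h) : W)}) +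
      ev _ (coset u {(rep (rootc cs K u h) : W)}) (coset (u * (rep (rootc cs K u h) : W)) ∅) +
      PW cs K (u * (rep (rootc cs K u h) : W)) := by
  unfold PW
  rw [length_desc (rep (rootc cs K u h))]
  conv_lhs => unfold PWf
  rw [dif_pos h]

/-- the loop which belongs to a component -/
noncomputable def Lam (cs : CoxeterSystem M W) (K : Set (Finset W)) (w : W) (c : CC cs K w) :
    cocycles (reflComplex K) →ₗ[ZMod 2] ZMod 2 :=
  ev _ (coset w ∅) (coset w {(rep c : W)}) +
    ev _ (coset w {(rep c : W)}) (coset (w * (rep c : W)) ∅) + PW cs K (w * (rep c : W)) + PW cs K w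

theorem Lam_root (h : Nonempty (DV cs w)) (φ : cocycles (reflComplex K)) :
    Lam cs K w (rootc cs K w h) φ = 0 := by
  unfold Lam
  rw [← PW_eq h]
  exact two_zero _

theorem edge1 [DecidableEq (Set W)] (hK : IsComplexOn cs K) (s : DV cs w) :
    ({coset w ∅, coset w {(s : W)}} : Finset (Set W)) ∈ reflComplex K :=
  pair_mem.2 ⟨sing_mem_cells K w, ⟨w, _, Or.inr (sing_mem_K hK s), rfl⟩,
    Or.inl (coset_mono (Finset.empty_subset _) (self_mem_coset _ _))⟩

theorem edge2 [DecidableEq (Set W)] (hK : IsComplexOn cs K) (s : DV cs w) :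
    ({coset w {(s : W)}, coset (w * (s : W)) ∅} : Finset (Set W)) ∈ reflComplex K :=
  pair_mem.2 ⟨⟨w, _, Or.inr (sing_mem_K hK s), rfl⟩, sing_mem_cells K _,
    Or.inr (coset_mono (Finset.empty_subset _) (mul_mem_coset (self_mem_coset _ _)
      (Subgroup.subset_closure (by simp))))⟩

theorem eq_one_of_not_nonempty (h : ¬ Nonempty (DV cs u)) : u = 1 := by
  by_contra hne
  obtain ⟨i, hi⟩ := cs.exists_rightDescent_of_ne_one hne
  exact h ⟨⟨_, i, rfl, hi⟩⟩

theorem PW_cob (hK : IsComplexOn cs K) {φ : cocycles (reflComplex K)} {ψ : Set W → ZMod 2}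
    (hψ : ∀ σ ∈ reflComplex K, ∀ a ∈ σ, ∀ b ∈ σ, φ.1 a b = ψ a + ψ b) (u : W) :
    PW cs K u φ = ψ (coset u ∅) + ψ (coset 1 ∅) := by
  classical
  induction hn : cs.length u using Nat.strong_induction_on generalizing u with
  | _ n ih =>
    by_cases h : Nonempty (DV cs u)
    · have hl := length_desc (rep (rootc cs K u h))
      rw [PW_eq h, LinearMap.add_apply, LinearMap.add_apply, ev_apply, ev_apply,
        hψ _ (edge1 hK (rep (rootc cs K u h))) _ (by simp) _ (by simp),
        hψ _ (edge2 hK (rep (rootc cs K u h))) _ (by simp) _ (by simp),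
        ih _ (by omega) _ rfl]
      generalize ψ (coset u ∅) = a
      generalize ψ (coset u {(rep (rootc cs K u h) : W)}) = b
      generalize ψ (coset (u * (rep (rootc cs K u h) : W)) ∅) = c
      generalize ψ (coset 1 ∅) = d
      calc a + b + (b + c) + (c + d) = a + d + (b + b) + (c + c) := by ring
        _ = a + d := by rw [two_zero, two_zero, add_zero, add_zero]
    · have h1 := eq_one_of_not_nonempty h
      subst h1
      unfold PW
      rw [cs.length_one]
      unfold PWf
      rw [two_zero]
      rfl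

theorem Lam_cob (hK : IsComplexOn cs K) {φ : cocycles (reflComplex K)}
    (hφ : φ ∈ coboundaries (reflComplex K)) (w : W) (c : CC cs K w) : Lam cs K w c φ = 0 := by
  classical
  obtain ⟨ψ, hψ⟩ := hφ
  unfold Lam
  rw [LinearMap.add_apply, LinearMap.add_apply, LinearMap.add_apply, ev_apply, ev_apply,
    hψ _ (edge1 hK (rep c)) _ (by simp) _ (by simp),
    hψ _ (edge2 hK (rep c)) _ (by simp) _ (by simp), PW_cob hK hψ, PW_cob hK hψ]
  generalize ψ (coset w ∅) = a
  generalize ψ (coset w {(rep c : W)}) = b
  generalize ψ (coset (w * (rep c : W)) ∅) = d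
  generalize ψ (coset 1 ∅) = e
  calc a + b + (b + d) + (d + e) + (a + e) = (a + a) + (b + b) + (d + d) + (e + e) := by ring
    _ = 0 := by simp only [two_zero, add_zero]

theorem short_sing (s : DV cs w) : short cs (coset w {(s : W)}) = w * (s : W) := by
  obtain ⟨h1, h2⟩ := short_spec (cs := cs) {(s : W)} w
  have h3 : w * (s : W) ∈ coset (short cs (coset w {(s : W)})) {(s : W)} := by
    rw [coset_eq h1]
    exact mul_mem_coset (self_mem_coset _ _) (Subgroup.subset_closure (by simp))
  by_contra hne
  obtain ⟨-, i, hi, hd⟩ := h2.lt (simp_sing s) h3 (Ne.symm hne)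
  rw [Finset.mem_singleton] at hi
  have h4 := length_desc s
  unfold IsRightDescent at hd
  rw [hi] at hd
  obtain ⟨s, j, rfl, hj⟩ := s
  simp only at hd h4
  rw [mul_assoc, cs.simple_mul_simple_self, mul_one] at hd
  omega

section Finite

variable [Finite W]

/-- a cocycle which vanishes on all loops is a coboundary -/
theorem cob_of_lam (hK : IsComplexOn cs K) {φ : cocycles (reflComplex K)}
    (hφ : ∀ w c, Lam cs K w c φ = 0) : φ ∈ coboundaries (reflComplex K) := by
  classical
  set ψ : Set W → ZMod 2 := fun C => if hv : ∃ w, C = coset w (∅ : Finset W) then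
    PW cs K hv.choose φ else φ.1 C (coset (short cs C) ∅) + PW cs K (short cs C) φ with hψ
  have hψ0 : ∀ w, ψ (coset w ∅) = PW cs K w φ := by
    intro w
    have hv : ∃ w', coset w (∅ : Finset W) = coset w' (∅ : Finset W) := ⟨w, rfl⟩
    rw [hψ]
    simp only
    rw [dif_pos hv, ← coset_empty_inj hv.choose_spec]
  have hψ1 : ∀ w T, T ∈ K → ψ (coset w T) = φ.1 (coset w T) (coset (short cs (coset w T)) ∅) +
      PW cs K (short cs (coset w T)) φ := by
    intro w T hT
    rw [hψ]
    simp only
    rw [dif_neg (not_sing hK hT)]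
  refine ⟨ψ, cob_of_roots (h := ht cs) (fun σ hσ a ha b hb => ?_) (fun σ hσ v hv w hw hne => ?_)
    φ.2 ψ (fun v C hl => ?_)⟩
  · refine face_sub hσ ?_ (by simp)
    intro x hx
    simp only [Finset.mem_insert, Finset.mem_singleton] at hx
    rcases hx with rfl | rfl <;> assumption
  · rcases hσ.2.2 v hv w hw with h | h
    · exact ht_ne hK (hσ.2.1 v hv) (hσ.2.1 w hw) h hne
    · exact (ht_ne hK (hσ.2.1 w hw) (hσ.2.1 v hv) h hne.symm).symm
  · obtain ⟨w, T, hT, rfl, hw⟩ := cell_top (cs := cs) (pair_mem.1 hl.2).1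
    rcases hT with rfl | hT
    · obtain ⟨T', hT', hd, rfl⟩ := (ln_empty hK).1 hl
      obtain ⟨t, ht⟩ := hK.nonempty T' hT'
      obtain ⟨s, rfl⟩ := toDV hT' hK hd ht
      set c : CC cs K w := (descGraph cs K w).connectedComponentMk s with hc
      refine ⟨coset w {(rep c : W)}, ?_, reach_of_mem hK hT' hd s (rep c) ht
        (SimpleGraph.ConnectedComponent.exact (mk_rep c))⟩
      have h1 := hφ w c
      unfold Lam at h1
      rw [LinearMap.add_apply, LinearMap.add_apply, LinearMap.add_apply, ev_apply, ev_apply] at h1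
      rw [hψ0, hψ1 w _ (sing_mem_K hK (rep c)), short_sing]
      have h2 := CharTwo.add_eq_zero.1 h1
      rw [← h2]
      generalize φ.1 (coset w ∅) (coset w {(rep c : W)}) = a
      generalize φ.1 (coset w {(rep c : W)}) (coset (w * (rep c : W)) ∅) = b
      generalize PW cs K (w * (rep c : W)) φ = d
      calc a = a + (b + b) + (d + d) := by rw [two_zero, two_zero, add_zero, add_zero]
        _ = a + b + d + (b + d) := by ring
    · have hs := short_spec (cs := cs) T w
      refine ⟨coset (short cs (coset w T)) ∅, ?_, connected_of_mem hK hT hw hs.2 hs.1 hl⟩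
      rw [hψ1 w T hT, hψ0, add_assoc, two_zero, add_zero]

/-- a cocycle as an element of the space of cocycles -/
noncomputable def cocE (hK : IsComplexOn cs K) (w : W) (D : CC cs K w) :
    cocycles (reflComplex K) := ⟨coc cs K w D, coc_cocycle hK D⟩

theorem coc_off {D : CC cs K w} (h : ¬ On cs w C ∨ ¬ On cs w C') : coc cs K w D C C' = 0 := by
  unfold coc
  rw [if_neg]
  tauto

theorem PW_off (hK : IsComplexOn cs K) (D : CC cs K w) (u : W) (hu : cs.length u ≤ cs.length w)
    (hne : u ≠ w) : PW cs K u (cocE hK w D) = 0 := by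
  induction hn : cs.length u using Nat.strong_induction_on generalizing u with
  | _ n ih =>
    by_cases h : Nonempty (DV cs u)
    · have hl := length_desc (rep (rootc cs K u h))
      have hlt : cs.length (u * (rep (rootc cs K u h) : W)) < cs.length w := by omega
      have hne' : u * (rep (rootc cs K u h) : W) ≠ w := by
        intro he
        rw [he] at hlt
        exact lt_irrefl _ hlt
      rw [PW_eq h, LinearMap.add_apply, LinearMap.add_apply, ev_apply, ev_apply,
        ih _ (by omega) _ hlt.le hne' rfl]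
      change coc cs K w D _ _ + coc cs K w D _ _ + 0 = 0
      rw [coc_off (Or.inl (not_on hu hne)), coc_off (Or.inr (not_on hlt.le hne')), add_zero,
        add_zero]
    · have h1 := eq_one_of_not_nonempty h
      subst h1
      unfold PW
      rw [cs.length_one]
      rfl

theorem coc_wall [DecidableEq (CC cs K w)] (D c : CC cs K w) :
    coc cs K w D (coset w ∅) (coset w {(rep c : W)}) = if c = D then 1 else 0 := by
  classical
  unfold coc
  rw [if_pos ⟨on_self _, on_self _⟩]
  have h0 : ¬ Typ cs K w D (coset w ∅) := by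
    rw [typ_iff (fun x hx => by simp at hx)]
    simp
  rw [if_neg h0, zero_add]
  refine if_congr ?_ rfl rfl
  rw [typ_iff (simp_sing (rep c))]
  constructor
  · rintro ⟨s, hs, hm⟩
    rw [Finset.mem_singleton] at hm
    rw [← hs, Subtype.ext hm, mk_rep]
  · rintro rfl
    exact ⟨rep c, mk_rep c, by simp⟩

theorem desc_off (hK : IsComplexOn cs K) (D : CC cs K w) (s : DV cs w) :
    ¬ On cs w (coset (w * (s : W)) ∅) ∧ PW cs K (w * (s : W)) (cocE hK w D) = 0 := by
  have hl := length_desc s
  have hne : w * (s : W) ≠ w := by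
    intro he
    rw [he] at hl
    omega
  exact ⟨not_on (by omega) hne, PW_off hK D _ (by omega) hne⟩

theorem PW_self (hK : IsComplexOn cs K) [DecidableEq (CC cs K w)] (D : CC cs K w)
    (h : Nonempty (DV cs w)) :
    PW cs K w (cocE hK w D) = if rootc cs K w h = D then 1 else 0 := by
  obtain ⟨h1, h2⟩ := desc_off hK D (rep (rootc cs K w h))
  rw [PW_eq h, LinearMap.add_apply, LinearMap.add_apply, ev_apply, ev_apply, h2, add_zero]
  change coc cs K w D _ _ + coc cs K w D _ _ = _
  rw [coc_wall, coc_off (Or.inr h1), add_zero]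

theorem Lam_self (hK : IsComplexOn cs K) [DecidableEq (CC cs K w)] (D c : CC cs K w)
    (h : Nonempty (DV cs w)) (hD : D ≠ rootc cs K w h) :
    Lam cs K w c (cocE hK w D) = if c = D then 1 else 0 := by
  obtain ⟨h1, h2⟩ := desc_off hK D (rep c)
  unfold Lam
  rw [LinearMap.add_apply, LinearMap.add_apply, LinearMap.add_apply, ev_apply, ev_apply, h2,
    PW_self hK D h, if_neg (Ne.symm hD), add_zero, add_zero]
  change coc cs K w D _ _ + coc cs K w D _ _ = _
  rw [coc_wall, coc_off (Or.inr h1), add_zero]

theorem Lam_off (hK : IsComplexOn cs K) (D : CC cs K w) (hu : cs.length u ≤ cs.length w)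
    (hne : u ≠ w) (c : CC cs K u) : Lam cs K u c (cocE hK w D) = 0 := by
  have hl := length_desc (rep c)
  have hlt : cs.length (u * (rep c : W)) < cs.length w := by omega
  have hne' : u * (rep c : W) ≠ w := by
    intro he
    rw [he] at hlt
    exact lt_irrefl _ hlt
  unfold Lam
  rw [LinearMap.add_apply, LinearMap.add_apply, LinearMap.add_apply, ev_apply, ev_apply,
    PW_off hK D u hu hne, PW_off hK D _ hlt.le hne']
  change coc cs K w D _ _ + coc cs K w D _ _ + 0 + 0 = 0
  rw [coc_off (Or.inl (not_on hu hne)), coc_off (Or.inr (not_on hlt.le hne')), add_zero,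
    add_zero, add_zero]

end Finite

/-- the components other than the distinguished ones -/
abbrev Ix (cs : CoxeterSystem M W) (K : Set (Finset W)) :=
  Σ w : W, {c : CC cs K w // ∀ h : Nonempty (DV cs w), c ≠ rootc cs K w h}

theorem cc_nonempty (c : CC cs K w) : Nonempty (DV cs w) := ⟨rep c⟩

theorem card_ix [Fintype W] : Nat.card (Ix cs K) = ∑ w, (descComp cs K w - 1) := by
  classical
  have hfin : ∀ w, Finite (CC cs K w) := fun w => inferInstance
  rw [Nat.card_sigma]
  refine Finset.sum_congr rfl fun w _ => ?_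
  by_cases hne : Nonempty (DV cs w)
  · have e : {c : CC cs K w // ∀ h : Nonempty (DV cs w), c ≠ rootc cs K w h} ≃
        {c : CC cs K w // c ≠ rootc cs K w hne} :=
      Equiv.subtypeEquivRight fun c => ⟨fun h => h hne, fun h _ => h⟩
    rw [Nat.card_congr e]
    let _ : Fintype (CC cs K w) := Fintype.ofFinite _
    unfold descComp
    rw [Nat.card_eq_fintype_card, Nat.card_eq_fintype_card, Fintype.card_subtype_compl,
      Fintype.card_subtype_eq]
  · have h1 : IsEmpty (CC cs K w) := ⟨fun c => hne (cc_nonempty c)⟩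
    unfold descComp
    rw [Nat.card_eq_zero.2 (Or.inl inferInstance),
      Nat.card_eq_zero.2 (Or.inl h1)]

/-- The first Betti number over `Z/2` of the reflection complex. -/
theorem betti_eq [Fintype W] (hK : IsComplexOn cs K) :
    HasBetti (reflComplex K) (∑ w, (descComp cs K w - 1)) := by
  classical
  have hfin : ∀ w, Finite (CC cs K w) := fun w => inferInstance
  have hfinI : Finite (Ix cs K) := inferInstance
  let _ : Fintype (Ix cs K) := Fintype.ofFinite _
  rw [← card_ix (cs := cs) (K := K), Nat.card_eq_fintype_card]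
  set L : cocycles (reflComplex K) →ₗ[ZMod 2] (Ix cs K → ZMod 2) :=
    LinearMap.pi fun x => Lam cs K x.1 x.2.1 with hL
  have hL1 : ∀ φ ∈ coboundaries (reflComplex K), L φ = 0 := by
    intro φ hφ
    funext x
    exact Lam_cob hK hφ x.1 x.2.1
  have hL2 : ∀ φ, L φ = 0 → φ ∈ coboundaries (reflComplex K) := by
    intro φ hφ
    apply cob_of_lam hK
    intro w c
    by_cases h : c = rootc cs K w (cc_nonempty c)
    · rw [h]
      exact Lam_root _ φ
    · exact congrFun hφ ⟨w, c, fun _ => h⟩
  have hli : LinearIndependent (ZMod 2)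
      (fun x : Ix cs K => L.rangeRestrict (cocE hK x.1 x.2.1)) := by
    rw [Fintype.linearIndependent_iff]
    intro g hg
    by_contra hcon
    push Not at hcon
    obtain ⟨x0, hx0⟩ := hcon
    obtain ⟨x, hx, hmin⟩ := Finset.exists_min_image
      (Finset.univ.filter fun x : Ix cs K => g x ≠ 0) (fun x => cs.length x.1)
      ⟨x0, by simpa using hx0⟩
    rw [Finset.mem_filter] at hx
    apply hx.2
    have h1 : (∑ y, g y • L (cocE hK y.1 y.2.1)) = 0 := by
      have := congrArg Subtype.val hg
      simpa using this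
    have h2 := congrFun h1 x
    rw [Finset.sum_apply] at h2
    have h3 : ∀ y : Ix cs K, (g y • L (cocE hK y.1 y.2.1)) x =
        g y * Lam cs K x.1 x.2.1 (cocE hK y.1 y.2.1) := fun y => rfl
    simp only [h3] at h2
    rw [Finset.sum_eq_single x] at h2
    · obtain ⟨w, c, hc⟩ := x
      simp only at h2
      rw [Lam_self hK c c (cc_nonempty c) (hc _), if_pos rfl, mul_one] at h2
      exact h2
    · intro y _ hyx
      by_cases hy : g y = 0
      · rw [hy, zero_mul]
      · have h4 := hmin y (by simpa using hy)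
        by_cases hw : x.1 = y.1
        · obtain ⟨w, c, hc⟩ := x
          obtain ⟨w', c', hc'⟩ := y
          simp only at hw
          subst hw
          simp only
          rw [Lam_self hK c' c (cc_nonempty c') (hc' _), if_neg, mul_zero]
          rintro rfl
          exact hyx rfl
        · rw [Lam_off hK y.2.1 h4 hw, mul_zero]
    · intro h
      exact absurd (Finset.mem_univ x) h
  have hsurj : Function.Surjective L := by
    rw [← LinearMap.range_eq_top]
    apply Submodule.eq_top_of_finrank_eq
    apply le_antisymm (Submodule.finrank_le _)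
    rw [Module.finrank_fintype_fun_eq_card]
    exact hli.fintype_card_le_finrank
  set e := Fintype.equivFin (Ix cs K) with he
  choose p hp using fun i : Fin (Fintype.card (Ix cs K)) => hsurj (Pi.single (e.symm i) 1)
  refine ⟨fun i => (p i).1, fun i => (p i).2, fun χ hχ => ?_⟩
  set χ' : cocycles (reflComplex K) := ⟨χ, hχ⟩ with hχ'
  have hsum : ∀ S : Finset (Fin (Fintype.card (Ix cs K))), ∀ x,
      L (χ' + ∑ i ∈ S, p i) x = L χ' x + if e x ∈ S then 1 else 0 := by
    intro S x
    rw [map_add, map_sum, Pi.add_apply, Finset.sum_apply]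
    congr 1
    simp only [hp]
    rw [Finset.sum_congr rfl (g := fun i => if e x = i then (1 : ZMod 2) else 0)
      (fun i _ => by
        rw [Pi.single_apply]
        refine if_congr ?_ rfl rfl
        rw [Equiv.eq_symm_apply])]
    rw [Finset.sum_ite_eq]
  have hval : ∀ S : Finset (Fin (Fintype.card (Ix cs K))),
      IsCoboundary (reflComplex K) (χ + ∑ i ∈ S, (p i).1) ↔
        χ' + ∑ i ∈ S, p i ∈ coboundaries (reflComplex K) := by
    intro S
    change _ ↔ IsCoboundary (reflComplex K) (χ' + ∑ i ∈ S, p i : cocycles (reflComplex K)).1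
    rw [Submodule.coe_add, Submodule.coe_sum]
  have hiff : ∀ S : Finset (Fin (Fintype.card (Ix cs K))),
      χ' + ∑ i ∈ S, p i ∈ coboundaries (reflComplex K) ↔
        ∀ x, L χ' x = if e x ∈ S then 1 else 0 := by
    intro S
    constructor
    · intro h x
      have h1 := congrFun (hL1 _ h) x
      rw [hsum] at h1
      exact CharTwo.add_eq_zero.1 h1
    · intro h
      apply hL2
      funext x
      rw [hsum, h x]
      exact two_zero _
  refine ⟨Finset.univ.filter fun i => L χ' (e.symm i) = 1, ?_, ?_⟩
  · simp only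
    rw [hval, hiff]
    intro x
    have h2 : ∀ y : ZMod 2, y = if y = 1 then 1 else 0 := by decide
    have h3 : e x ∈ (Finset.univ.filter fun i => L χ' (e.symm i) = 1) ↔ L χ' x = 1 := by
      rw [Finset.mem_filter, Equiv.symm_apply_apply]
      simp
    rw [if_congr h3 rfl rfl]
    exact h2 _
  · intro S hS
    simp only at hS
    rw [hval, hiff] at hS
    ext i
    rw [Finset.mem_filter]
    have h3 := hS (e.symm i)
    rw [Equiv.apply_symm_apply] at h3
    by_cases hi : i ∈ S
    · rw [if_pos hi] at h3
      simp [hi, h3]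
    · rw [if_neg hi] at h3
      simp [hi, h3]

end Pool.MP_f18604_gt.Cox
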