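import Mathlib
import Pool.Agent.Helper55.Cox.Main

/-!
# When is a reflection complex simply connected?
-/

set_option autoImplicit false
set_option linter.unusedSectionVars false

namespace Pool.MP_f18604_gt.Cox

open Pool.MP_f18604_gt.Gem CoxeterSystem

variable {B W : Type*} [Group W] {M : CoxeterMatrix B} {cs : CoxeterSystem M W}
  {K : Set (Finset W)} {w u v : W} {T T' : Finset W} {C C' C'' : Set W}

theorem exists_adj {V : Type*} {G : SimpleGraph V} {a b : V} (h : G.Reachable a b) (hne : a ≠ b) :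
    ∃ c, G.Adj a c := by
  obtain ⟨p⟩ := h
  cases p with
  | nil => exact absurd rfl hne
  | cons hadj _ => exact ⟨_, hadj⟩

theorem rtg_symm {α : Type*} {r : α → α → Prop} (hr : ∀ x y, r x y → r y x) {a b : α}
    (h : Relation.ReflTransGen r a b) : Relation.ReflTransGen r b a := by
  induction h with
  | refl => exact Relation.ReflTransGen.refl
  | tail _ hbc ih => exact Relation.ReflTransGen.head (hr _ _ hbc) ih

theorem rtg_mono {α : Type*} {r r' : α → α → Prop} (hr : ∀ x y, r x y → r' x y) {a b : α}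
    (h : Relation.ReflTransGen r a b) : Relation.ReflTransGen r' a b := by
  induction h with
  | refl => exact Relation.ReflTransGen.refl
  | tail _ hbc ih => exact ih.tail (hr _ _ hbc)

/-- any two simple reflections lie in a common simplex of `K` -/
def AllPairs (cs : CoxeterSystem M W) (K : Set (Finset W)) : Prop :=
  ∀ i j, ∃ T ∈ K, cs.simple i ∈ T ∧ cs.simple j ∈ T

theorem reach_of_allPairs (h : AllPairs cs K) (s t : DV cs w) :
    (descGraph cs K w).Reachable s t := by
  by_cases hne : s = t
  · rw [hne]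
  · obtain ⟨s, i, rfl, hi⟩ := s
    obtain ⟨t, j, rfl, hj⟩ := t
    obtain ⟨T, hT, h1, h2⟩ := h i j
    exact SimpleGraph.Adj.reachable ⟨hne, T, hT, h1, h2⟩

theorem sum_zero_iff [Fintype W] (hK : IsComplexOn cs K) :
    ∑ w, (descComp cs K w - 1) = 0 ↔ AllPairs cs K := by
  classical
  have hsub : ∀ w, descComp cs K w - 1 = 0 ↔
      Subsingleton (descGraph cs K w).ConnectedComponent := by
    intro w
    rw [Nat.sub_eq_zero_iff_le]
    unfold descComp
    exact Finite.card_le_one_iff_subsingleton
  rw [Finset.sum_eq_zero_iff]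
  constructor
  · intro h i j
    by_contra hno
    push Not at hno
    set T : Finset W := {cs.simple i, cs.simple j} with hT
    obtain ⟨w, hw, hd⟩ := exists_desc cs 1 T
    have hwT : w ∈ Subgroup.closure (T : Set W) := by
      have := hw
      rw [mem_coset] at this
      simpa using this
    have hTs : (T : Set W) ⊆ Set.range cs.simple := by
      intro x hx
      rw [hT] at hx
      simp only [Finset.coe_insert, Finset.coe_singleton, Set.mem_insert_iff,
        Set.mem_singleton_iff] at hx
      rcases hx with rfl | rfl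
      · exact ⟨i, rfl⟩
      · exact ⟨j, rfl⟩
    have hs := (hsub w).1 (h w (Finset.mem_univ w))
    have hi : cs.IsRightDescent w i := hd i (by simp [hT])
    have hj : cs.IsRightDescent w j := hd j (by simp [hT])
    set a : DV cs w := ⟨cs.simple i, i, rfl, hi⟩ with ha
    set b : DV cs w := ⟨cs.simple j, j, rfl, hj⟩ with hb
    have hmk : (descGraph cs K w).connectedComponentMk a =
        (descGraph cs K w).connectedComponentMk b := Subsingleton.elim _ _
    have hne : a ≠ b := by
      intro he
      have he' : cs.simple i = cs.simple j := congrArg Subtype.val he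
      exact hno _ (hK.vertex i) (by simp) (by rw [he']; simp)
    obtain ⟨c, hadj⟩ := exists_adj (SimpleGraph.ConnectedComponent.exact hmk) hne
    obtain ⟨hac, T0, hT0, h1, h2⟩ := hadj
    obtain ⟨c, k, rfl, hk⟩ := c
    have hmem : cs.simple k ∈ (T : Set W) := mem_of_isRightDescent hTs hwT hk
    rw [hT] at hmem
    simp only [Finset.coe_insert, Finset.coe_singleton, Set.mem_insert_iff,
      Set.mem_singleton_iff] at hmem
    rcases hmem with he | he
    · exact hac (Subtype.ext he.symm)
    · simp only at h2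
      rw [he] at h2
      exact hno T0 hT0 h1 h2
  · intro h w _
    rw [hsub]
    refine ⟨fun c c' => ?_⟩
    induction c using SimpleGraph.ConnectedComponent.ind with
    | _ s =>
      induction c' using SimpleGraph.ConnectedComponent.ind with
      | _ t => exact SimpleGraph.ConnectedComponent.sound (reach_of_allPairs h s t)

theorem symm_rel {α : Type*} [DecidableEq α] {X : Set (Finset α)} {h : α → ℕ} {v a b : α}
    (hab : Relation.ReflTransGen (fun a b => LN X h v a ∧ LN X h v b ∧
      ({v, a, b} : Finset α) ∈ X) a b) :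
    Relation.ReflTransGen (fun a b => LN X h v a ∧ LN X h v b ∧
      ({v, a, b} : Finset α) ∈ X) b a := by
  refine rtg_symm ?_ hab
  rintro x y ⟨h1, h2, h3⟩
  refine ⟨h2, h1, ?_⟩
  have : ({v, y, x} : Finset α) = {v, x, y} := by
    ext z; simp only [Finset.mem_insert, Finset.mem_singleton]; tauto
  rw [this]
  exact h3

theorem lnb_iff [DecidableEq (Set W)] : LNb (reflComplex K) (ht cs) C C' ↔
    LN (reflComplex K) (ht cs) C C' := by
  constructor
  · rintro ⟨h1, σ, hσ, h2, h3⟩
    refine ⟨h1, face_sub hσ ?_ (by simp)⟩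
    intro x hx
    simp only [Finset.mem_insert, Finset.mem_singleton] at hx
    rcases hx with rfl | rfl <;> assumption
  · rintro ⟨h1, h2⟩
    exact ⟨h1, _, h2, by simp, by simp⟩

theorem link_connected [Finite W] [DecidableEq (Set W)] (hK : IsComplexOn cs K)
    (hP : AllPairs cs K) (ha : LN (reflComplex K) (ht cs) C C')
    (hb : LN (reflComplex K) (ht cs) C C'') :
    Relation.ReflTransGen (fun a b => LN (reflComplex K) (ht cs) C a ∧
      LN (reflComplex K) (ht cs) C b ∧ ({C, a, b} : Finset (Set W)) ∈ reflComplex K) C' C'' := by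
  obtain ⟨w, T, hT, rfl, hw⟩ := cell_top (cs := cs) (pair_mem.1 ha.2).1
  rcases hT with rfl | hT
  · obtain ⟨T1, hT1, hd1, rfl⟩ := (ln_empty hK).1 ha
    obtain ⟨T2, hT2, hd2, rfl⟩ := (ln_empty hK).1 hb
    obtain ⟨t1, ht1⟩ := hK.nonempty T1 hT1
    obtain ⟨s1, rfl⟩ := toDV hT1 hK hd1 ht1
    obtain ⟨t2, ht2⟩ := hK.nonempty T2 hT2
    obtain ⟨s2, rfl⟩ := toDV hT2 hK hd2 ht2
    exact (symm_rel (reach_of_mem hK hT1 hd1 s1 s1 ht1 (SimpleGraph.Reachable.refl _))).trans
      (reach_of_mem hK hT2 hd2 s2 s1 ht2 (reach_of_allPairs hP _ _))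
  · have hs := short_spec (cs := cs) T w
    exact (symm_rel (connected_of_mem hK hT hw hs.2 hs.1 ha)).trans
      (connected_of_mem hK hT hw hs.2 hs.1 hb)

theorem exists_lower [Finite W] [DecidableEq (Set W)] (hK : IsComplexOn cs K)
    (hC : C ∈ cells K) (hne : C ≠ coset 1 ∅) :
    ∃ C', LN (reflComplex K) (ht cs) C C' := by
  obtain ⟨w, T, hT, rfl, hw⟩ := cell_top (cs := cs) hC
  rcases hT with rfl | hT
  · have h1 : w ≠ 1 := by
      rintro rfl
      exact hne rfl
    obtain ⟨i, hi⟩ := cs.exists_rightDescent_of_ne_one h1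
    exact ⟨_, ln_pt hK (⟨_, i, rfl, hi⟩ : DV cs w)⟩
  · have hs := short_spec (cs := cs) T w
    exact ⟨_, ln_sing hK hT hw hs.1 (short_ne hK hT hw hs.2)⟩

theorem simplyConn [Finite W] (hK : IsComplexOn cs K) (hP : AllPairs cs K) :
    SimplyConn (reflComplex K) := by
  classical
  constructor
  · have key : ∀ n, ∀ C : Set W, ht cs C = n → C ∈ cells K →
        Relation.ReflTransGen (fun x y => ∃ σ ∈ reflComplex K, x ∈ σ ∧ y ∈ σ) C
          (coset 1 (∅ : Finset W)) := by
      intro n
      induction n using Nat.strong_induction_on with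
      | _ n ih =>
        intro C hn hC
        by_cases h1 : C = coset 1 ∅
        · rw [h1]
        · obtain ⟨C', hl⟩ := exists_lower (cs := cs) hK hC h1
          exact Relation.ReflTransGen.head ⟨_, hl.2, by simp, by simp⟩
            (ih _ (hn ▸ hl.1) C' rfl (pair_mem.1 hl.2).2.1)
    intro a b ha hb
    refine (key _ a rfl (sing_mem.1 ha)).trans ?_
    refine rtg_symm ?_ (key _ b rfl (sing_mem.1 hb))
    rintro x y ⟨σ, hσ, h1, h2⟩
    exact ⟨σ, hσ, h2, h1⟩
  · intro G _ φ hφ
    apply trivial_of_connected (h := ht cs) _ _ hφ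
    · intro σ hσ v hv w hw hne
      rcases hσ.2.2 v hv w hw with h | h
      · exact ht_ne hK (hσ.2.1 v hv) (hσ.2.1 w hw) h hne
      · exact (ht_ne hK (hσ.2.1 w hw) (hσ.2.1 v hv) h hne.symm).symm
    · intro v r w hr hw
      refine rtg_mono ?_ (link_connected hK hP (lnb_iff.1 hr) (lnb_iff.1 hw))
      rintro a b ⟨h1, h2, h3⟩
      exact ⟨lnb_iff.2 h1, lnb_iff.2 h2, _, h3, by simp, by simp, by simp⟩

theorem betti_of_simplyConn {α : Type*} {X : Set (Finset α)} (h : SimplyConn X) {b : ℕ}
    (hb : HasBetti X b) : b = 0 := by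
  have h1 : ∀ φ, IsCocycle X φ → IsCoboundary X φ := by
    intro φ hφ
    obtain ⟨ψ, hψ⟩ := h.2 (Multiplicative (ZMod 2)) (fun a b => Multiplicative.ofAdd (φ a b))
      (fun σ hσ a ha b hb c hc => by rw [← ofAdd_add, hφ σ hσ a ha b hb c hc])
    refine ⟨fun a => Multiplicative.toAdd (ψ a), fun σ hσ a ha b hb => ?_⟩
    have := congrArg Multiplicative.toAdd (hψ σ hσ a ha b hb)
    rw [toAdd_ofAdd, toAdd_mul, toAdd_inv, ZMod.neg_eq_self_mod_two] at this
    exact this
  obtain ⟨φ, hφ, hu⟩ := hb
  by_contra hne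
  have h0 : IsCocycle X (0 : α → α → ZMod 2) := fun _ _ _ _ _ _ _ _ => add_zero _
  set i : Fin b := ⟨0, Nat.pos_of_ne_zero hne⟩
  have e1 : IsCoboundary X (0 + ∑ j ∈ (∅ : Finset (Fin b)), φ j) := by
    rw [Finset.sum_empty, add_zero]
    exact h1 _ h0
  have e2 : IsCoboundary X (0 + ∑ j ∈ ({i} : Finset (Fin b)), φ j) := by
    rw [Finset.sum_singleton, zero_add]
    exact h1 _ (hφ i)
  have e3 := (hu 0 h0).unique e1 e2
  exact Finset.singleton_ne_empty i e3.symm

end Pool.MP_f18604_gt.Cox
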